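import Mathlib

/-!
# The kernel polynomial of the powers of the Beurling transform on angular modes
-/

set_option autoImplicit false

open Polynomial MeasureTheory intervalIntegral

namespace Pool.Agent.Q75.BM

/-- `W = X ^ e (X - 1) ^ (n - 1)` -/
noncomputable def Wp (n e : ℕ) : ℝ[X] := X ^ e * (X - C 1) ^ (n - 1)

/-- the coefficients -/
noncomputable def cf (n e j : ℕ) : ℝ := (n.choose j : ℝ) * (e.descFactorial j : ℝ) / ((j - 1).factorial : ℝ)

/-- the kernel polynomial -/
noncomputable def pp (n e : ℕ) : ℝ[X] :=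
  ∑ j ∈ Finset.range n, C (cf n e (j + 1)) * (X ^ (n - (j + 1)) * (X - C 1) ^ j)

lemma deriv_Wp (n e : ℕ) (hn : 1 ≤ n) (he : n ≤ e) :
    derivative^[n] (Wp n e) = C (((n - 1).factorial : ℝ)) * (X ^ (e - n) * pp n e) := by
  unfold Wp
  rw [iterate_derivative_mul, Finset.sum_range_succ]
  have hlast : n.choose n • (derivative^[n - n] ((X : ℝ[X]) ^ e) *
      derivative^[n] ((X - C (1 : ℝ)) ^ (n - 1))) = 0 := by
    rw [iterate_derivative_X_sub_pow, Nat.descFactorial_of_lt (by omega)]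
    simp
  rw [hlast, add_zero, pp, Finset.mul_sum, Finset.mul_sum, ← Finset.sum_range_reflect]
  refine Finset.sum_congr rfl fun j hj => ?_
  have hj' : j < n := Finset.mem_range.1 hj
  have e1 : n - (n - 1 - j) = j + 1 := by omega
  have e2 : n - 1 - (n - 1 - j) = j := by omega
  rw [e1, iterate_derivative_X_sub_pow, e2, iterate_derivative_X_pow_eq_natCast_mul]
  have e3 : n.choose (n - 1 - j) = n.choose (j + 1) := by
    have h : n - 1 - j = n - (j + 1) := by omega
    rw [h]
    exact Nat.choose_symm (by omega)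
  have e4 : ((n - 1).descFactorial (n - 1 - j) : ℝ) * (j.factorial : ℝ) = ((n - 1).factorial : ℝ) := by
    have := Nat.factorial_mul_descFactorial (n := n - 1) (k := n - 1 - j) (by omega)
    rw [e2] at this
    rw [mul_comm]
    exact_mod_cast this
  have e5 : (X : ℝ[X]) ^ (e - n) * (C (cf n e (j + 1)) * (X ^ (n - (j + 1)) * (X - C 1) ^ j))
      = C (cf n e (j + 1)) * (X ^ (e - (j + 1)) * (X - C 1) ^ j) := by
    have : e - (j + 1) = (e - n) + (n - (j + 1)) := by omega
    rw [this, pow_add]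
    ring
  rw [e5, e3, ← mul_assoc (C _) (C _), ← C_mul]
  have e6 : ((n - 1).factorial : ℝ) * cf n e (j + 1)
      = (n.choose (j + 1) : ℝ) * (e.descFactorial (j + 1) : ℝ) * ((n - 1).descFactorial (n - 1 - j) : ℝ) := by
    unfold cf
    rw [Nat.add_sub_cancel]
    have : ((j.factorial : ℝ)) ≠ 0 := by positivity
    field_simp
    rw [← e4]
    ring
  rw [e6]
  simp only [nsmul_eq_mul, C_mul, map_natCast]
  ring

lemma Wp_zero {n e i : ℕ} (hi : i < e) : (derivative^[i] (Wp n e)).eval 0 = 0 := by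
  have h : (X : ℝ[X]) ^ e ∣ Wp n e := Dvd.intro _ rfl
  obtain ⟨q, hq⟩ := pow_sub_dvd_iterate_derivative_of_pow_dvd i h
  rw [hq, eval_mul, eval_pow, eval_X, zero_pow (by omega), zero_mul]

lemma Wp_one {n e i : ℕ} (hi : i < n - 1) : (derivative^[i] (Wp n e)).eval 1 = 0 := by
  have h : ((X : ℝ[X]) - C 1) ^ (n - 1) ∣ Wp n e := Dvd.intro_left _ rfl
  obtain ⟨q, hq⟩ := pow_sub_dvd_iterate_derivative_of_pow_dvd i h
  rw [hq, eval_mul, eval_pow]
  simp only [eval_sub, eval_X, eval_C, sub_self]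
  rw [zero_pow (by omega), zero_mul]

lemma Wp_one_last {n e : ℕ} (hn : 1 ≤ n) :
    (derivative^[n - 1] (Wp n e)).eval 1 = ((n - 1).factorial : ℝ) := by
  unfold Wp
  rw [iterate_derivative_mul, eval_finsetSum, Finset.sum_range_succ]
  have h0 : ∑ x ∈ Finset.range (n - 1), eval 1 ((n - 1).choose x •
      (derivative^[n - 1 - x] ((X : ℝ[X]) ^ e) * derivative^[x] ((X - C (1 : ℝ)) ^ (n - 1)))) = 0 := by
    refine Finset.sum_eq_zero fun x hx => ?_
    have hx' := Finset.mem_range.1 hx
    rw [iterate_derivative_X_sub_pow]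
    simp only [eval_smul, eval_mul, eval_pow, eval_sub, eval_X, eval_C, sub_self]
    rw [zero_pow (by omega)]
    simp
  rw [h0, zero_add, iterate_derivative_X_sub_pow]
  simp [Nat.descFactorial_self]

lemma parts (q V : ℝ[X]) : ∫ u in (0 : ℝ)..1, q.eval u * (derivative V).eval u =
    q.eval 1 * V.eval 1 - q.eval 0 * V.eval 0 - ∫ u in (0 : ℝ)..1, (derivative q).eval u * V.eval u := by
  refine integral_mul_deriv_eq_deriv_mul (fun x _ => q.hasDerivAt x) (fun x _ => V.hasDerivAt x) ?_ ?_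
  · exact (derivative q).continuous.intervalIntegrable _ _
  · exact (derivative V).continuous.intervalIntegrable _ _

lemma degree_deriv {q : ℝ[X]} {i : ℕ} (hq : q.degree < ((i + 1 : ℕ) : WithBot ℕ)) :
    (derivative q).degree < (i : WithBot ℕ) := by
  rw [degree_lt_iff_coeff_zero] at hq ⊢
  intro m hm
  rw [coeff_derivative, hq (m + 1) (by omega), zero_mul]

lemma orth_small {n e : ℕ} (he : n ≤ e) (i : ℕ) (hi : i < n) :
    ∀ q : ℝ[X], q.degree < (i : WithBot ℕ) →
      ∫ u in (0 : ℝ)..1, q.eval u * (derivative^[i] (Wp n e)).eval u = 0 := by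
  induction i with
  | zero =>
    intro q hq
    have : q = 0 := by
      rw [degree_lt_iff_coeff_zero] at hq
      ext m
      rw [hq m (Nat.zero_le _), coeff_zero]
    subst this
    simp
  | succ i ih =>
    intro q hq
    rw [Function.iterate_succ_apply', parts, Wp_one (by omega), Wp_zero (by omega),
      ih (by omega) _ (degree_deriv hq)]
    ring

lemma orth {n e : ℕ} (hn : 1 ≤ n) (he : n ≤ e) (q : ℝ[X]) (hq : q.degree < (n : WithBot ℕ)) :
    ∫ u in (0 : ℝ)..1, q.eval u * (derivative^[n] (Wp n e)).eval u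
      = q.eval 1 * ((n - 1).factorial : ℝ) := by
  obtain ⟨k, rfl⟩ : ∃ k, n = k + 1 := ⟨n - 1, by omega⟩
  rw [Function.iterate_succ_apply', parts, Wp_zero (by omega),
    orth_small he k (by omega) _ (degree_deriv hq)]
  have := Wp_one_last (n := k + 1) (e := e) hn
  rw [Nat.add_sub_cancel] at this ⊢
  rw [this]
  ring

lemma pp_degree (n e : ℕ) : (pp n e).degree < (n : WithBot ℕ) := by
  rw [degree_lt_iff_coeff_zero]
  intro m hm
  unfold pp
  rw [finsetSum_coeff]
  refine Finset.sum_eq_zero fun j hj => ?_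
  have hj' := Finset.mem_range.1 hj
  refine coeff_eq_zero_of_natDegree_lt (lt_of_le_of_lt (b := n - 1) ?_ (by omega))
  refine (natDegree_C_mul_le _ _).trans ?_
  refine natDegree_mul_le.trans ?_
  rw [natDegree_X_pow]
  have h2 : ((X - C (1 : ℝ)) ^ j).natDegree ≤ j := by
    refine natDegree_pow_le.trans ?_
    rw [natDegree_X_sub_C, mul_one]
  omega

lemma pp_one (n e : ℕ) (hn : 1 ≤ n) : (pp n e).eval 1 = (n : ℝ) * e := by
  unfold pp
  rw [eval_finsetSum]
  obtain ⟨k, rfl⟩ : ∃ k, n = k + 1 := ⟨n - 1, by omega⟩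
  rw [Finset.sum_range_succ']
  have h0 : ∑ j ∈ Finset.range k, eval 1 (C (cf (k + 1) e (j + 1 + 1)) *
      ((X : ℝ[X]) ^ (k + 1 - (j + 1 + 1)) * (X - C 1) ^ (j + 1))) = 0 := by
    refine Finset.sum_eq_zero fun j _ => ?_
    simp
  rw [h0, zero_add]
  simp [cf]

/-- the square integral of the kernel -/
lemma int_sq (n m : ℕ) (hn : 1 ≤ n) :
    ∫ u in (0 : ℝ)..1, u ^ m * ((pp n (n + m)).eval u) ^ 2 = (n : ℝ) * (n + m) := by
  have h1 := orth (n := n) (e := n + m) hn (by omega) (pp n (n + m)) (pp_degree _ _)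
  rw [deriv_Wp n (n + m) hn (by omega), pp_one _ _ hn] at h1
  have h2 : ∀ u : ℝ, (pp n (n + m)).eval u * (C (((n - 1).factorial : ℝ)) *
      (X ^ (n + m - n) * pp n (n + m))).eval u
      = ((n - 1).factorial : ℝ) * (u ^ m * ((pp n (n + m)).eval u) ^ 2) := by
    intro u
    rw [Nat.add_sub_cancel_left]
    simp only [eval_mul, eval_C, eval_pow, eval_X]
    ring
  simp only [h2] at h1
  rw [intervalIntegral.integral_const_mul] at h1
  have h3 : (((n - 1).factorial : ℝ)) ≠ 0 := by positivity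
  have h4 : ((n - 1).factorial : ℝ) * (∫ u in (0 : ℝ)..1, u ^ m * ((pp n (n + m)).eval u) ^ 2)
      = ((n - 1).factorial : ℝ) * ((n : ℝ) * (n + m)) := by
    rw [h1]
    push_cast
    ring
  exact mul_left_cancel₀ h3 h4

/-- the kernel -/
noncomputable def kap (n m : ℕ) (u : ℝ) : ℝ := - (√u ^ m * (pp n (n + m)).eval u)

lemma kap_cont (n m : ℕ) : Continuous (kap n m) := by
  unfold kap
  exact ((Real.continuous_sqrt.pow m).mul (pp n (n + m)).continuous).neg

lemma kap_abs_int (n m : ℕ) (hn : 1 ≤ n) :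
    ∫ u in (0 : ℝ)..1, |kap n m u| ≤ √((n : ℝ) * (n + m)) := by
  set L : ℝ := √((n : ℝ) * (n + m)) with hL
  have hpos : 0 < (n : ℝ) * (n + m) := by
    have : (1 : ℝ) ≤ n := by exact_mod_cast hn
    positivity
  have hLp : 0 < L := Real.sqrt_pos.2 hpos
  have hL2 : L ^ 2 = (n : ℝ) * (n + m) := Real.sq_sqrt hpos.le
  have hsq : ∫ u in (0 : ℝ)..1, (kap n m u) ^ 2 = (n : ℝ) * (n + m) := by
    rw [← int_sq n m hn]
    refine integral_congr fun u hu => ?_
    rw [Set.uIcc_of_le zero_le_one] at hu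
    unfold kap
    rw [neg_sq, mul_pow, ← pow_mul, mul_comm m 2, pow_mul, Real.sq_sqrt hu.1]
  have hle : ∫ u in (0 : ℝ)..1, |kap n m u| ≤
      ∫ u in (0 : ℝ)..1, (1 / 2 * (L + (kap n m u) ^ 2 / L)) := by
    refine intervalIntegral.integral_mono_on zero_le_one ?_ ?_ fun u _ => ?_
    · exact (kap_cont n m).abs.intervalIntegrable _ _
    · exact Continuous.intervalIntegrable (by have := kap_cont n m; fun_prop) _ _
    · have h1 : 0 ≤ (|kap n m u| - L) ^ 2 := sq_nonneg _
      have h2 : |kap n m u| ^ 2 = (kap n m u) ^ 2 := sq_abs _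
      have h3 : 1 / 2 * (L + (kap n m u) ^ 2 / L) = ((L ^ 2 + (kap n m u) ^ 2) / (2 * L)) := by
        field_simp
      rw [h3, le_div_iff₀ (by positivity)]
      nlinarith
  refine hle.trans ?_
  rw [intervalIntegral.integral_const_mul, intervalIntegral.integral_add, intervalIntegral.integral_div,
    hsq, ← hL2]
  · rw [intervalIntegral.integral_const, sub_zero, one_smul]
    have : L ^ 2 / L = L := by field_simp
    rw [this]
    linarith
  · exact Continuous.intervalIntegrable (by fun_prop) _ _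
  · exact Continuous.intervalIntegrable (by have := kap_cont n m; fun_prop) _ _

end Pool.Agent.Q75.BM
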