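import Pool.Agent.Y282.RB.A
import Pool.Agent.Y282.RB.A1
import Pool.Agent.Y282.RB.A2
import Pool.Agent.Q75.BM.P

/-!
# The powers of the Beurling transform on `z ^ (2 n + m) g(|z| ^ 2)` as an integral operator
-/

set_option autoImplicit false

open MeasureTheory Set Filter Topology intervalIntegral
open scoped SchwartzMap ContDiff

namespace Pool.Agent.Q75.BM

open Pool.Agent.Y282.RB (Tn)
open Pool.Agent.Y282.RB.A2 (HH HH_smooth real_iter db dd db_iter dd_iter Tn_db)

lemma ftop {F : ℝ → ℂ} (hF : ContDiff ℝ (⊤ : ℕ∞) F) (j : ℕ) (x : ℝ) :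
    HasDerivAt (iteratedDeriv j F) (iteratedDeriv (j + 1) F x) x := by
  have h1 : Differentiable ℝ (iteratedDeriv j F) :=
    hF.differentiable_iteratedDeriv j (by exact_mod_cast ENat.natCast_lt_top j)
  rw [iteratedDeriv_succ]
  exact (h1 x).hasDerivAt

lemma fcont {F : ℝ → ℂ} (hF : ContDiff ℝ (⊤ : ℕ∞) F) (j : ℕ) :
    Continuous (iteratedDeriv j F) :=
  hF.continuous_iteratedDeriv j (by exact_mod_cast le_top)

/-- Taylor formula from the right -/
lemma taylor {F : ℝ → ℂ} (hF : ContDiff ℝ (⊤ : ℕ∞) F) {R M : ℝ} (hR : ∀ x, R ≤ x → F x = 0)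
    (hM : R + 1 ≤ M) (x : ℝ) (j : ℕ) :
    F x = (-1) ^ (j + 1) * ∫ y in x..M, (((y - x) ^ j / (j.factorial : ℝ) : ℝ) : ℂ) *
      iteratedDeriv (j + 1) F y := by
  have hz : ∀ i, iteratedDeriv i F M = 0 := fun i => Pool.Agent.Y282.RB.A.iter_zero hR i M hM
  induction j with
  | zero =>
    have h1 := intervalIntegral.integral_eq_sub_of_hasDerivAt (a := x) (b := M)
      (fun y _ => ftop hF 0 y) ((fcont hF 1).intervalIntegrable _ _)
    simp only [pow_zero, Nat.factorial_zero, Nat.cast_one, div_one, Complex.ofReal_one, one_mul,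
      zero_add, pow_one]
    rw [h1, hz 0, iteratedDeriv_zero]
    ring
  | succ j ih =>
    rw [ih]
    have hU : ∀ y : ℝ, HasDerivAt (fun y : ℝ => (((y - x) ^ (j + 1) / ((j + 1).factorial : ℝ) : ℝ) : ℂ))
        ((((y - x) ^ j / (j.factorial : ℝ) : ℝ) : ℂ)) y := by
      intro y
      have h2 : HasDerivAt (fun y : ℝ => (y - x) ^ (j + 1) / ((j + 1).factorial : ℝ))
          ((y - x) ^ j / (j.factorial : ℝ)) y := by
        have h3 := (((hasDerivAt_id y).sub_const x).pow (j + 1)).div_const ((j + 1).factorial : ℝ)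
        refine h3.congr_deriv ?_
        rw [Nat.factorial_succ]
        push_cast
        simp only [id]
        have : (j.factorial : ℝ) ≠ 0 := by positivity
        field_simp
      exact h2.ofReal_comp
    have h4 := intervalIntegral.integral_deriv_mul_eq_sub (a := x) (b := M)
      (u := fun y : ℝ => (((y - x) ^ (j + 1) / ((j + 1).factorial : ℝ) : ℝ) : ℂ))
      (v := iteratedDeriv (j + 1) F)
      (fun y _ => hU y) (fun y _ => ftop hF (j + 1) y)
      (Continuous.intervalIntegrable (by fun_prop) _ _) ((fcont hF (j + 2)).intervalIntegrable _ _)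
    rw [intervalIntegral.integral_add
      (Continuous.intervalIntegrable (by have := fcont hF (j + 1); fun_prop) _ _)
      (Continuous.intervalIntegrable (by have := fcont hF (j + 2); fun_prop) _ _), hz] at h4
    simp only [sub_self, mul_zero] at h4
    have h5 : (((0 : ℝ) ^ (j + 1) / ((j + 1).factorial : ℝ) : ℝ) : ℂ) = 0 := by simp
    rw [h5, zero_mul, sub_self] at h4
    have h6 := eq_neg_of_add_eq_zero_left h4
    rw [h6]
    ring

/-- powers -/
lemma iter_pow (N k : ℕ) (x : ℝ) : iteratedDeriv k (fun t : ℝ => (t : ℂ) ^ N) x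
    = (N.descFactorial k : ℂ) * (x : ℂ) ^ (N - k) := by
  induction k generalizing x with
  | zero => simp
  | succ k ih =>
    have h1 : iteratedDeriv k (fun t : ℝ => (t : ℂ) ^ N) =
        fun t : ℝ => (N.descFactorial k : ℂ) * (t : ℂ) ^ (N - k) := funext ih
    rw [iteratedDeriv_succ, h1]
    have h3 : HasDerivAt (fun t : ℝ => (t : ℂ) ^ (N - k))
        ((N - k : ℕ) * (x : ℂ) ^ (N - k - 1)) x := (hasDerivAt_pow (N - k) (x : ℂ)).comp_ofReal
    rw [(h3.const_mul _).deriv, Nat.descFactorial_succ, Nat.sub_sub]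
    push_cast
    ring

/-- the operator -/
noncomputable def S (n m : ℕ) (ψ : ℝ → ℂ) (x : ℝ) : ℂ :=
  ψ x + ∫ y in Ioi x, ((kap n m (x / y) / y : ℝ) : ℂ) * ψ y

lemma leib {h : ℝ → ℂ} (hh : ContDiff ℝ (⊤ : ℕ∞) h) (n m : ℕ) {x : ℝ} (hx : 0 < x) :
    HH (n + m) h n x = ∑ i ∈ Finset.range (n + 1), (n.choose i : ℂ) *
      ((n + m).descFactorial i : ℂ) * (x : ℂ) ^ (n - i) * iteratedDeriv (n - i) h x := by
  have h1 := real_iter (n := n + m) hh n (by omega) x
  have hx0 : (x : ℂ) ≠ 0 := Complex.ofReal_ne_zero.2 hx.ne'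
  have hpw : ContDiffAt ℝ n (fun t : ℝ => (t : ℂ) ^ (n + m)) x :=
    (Complex.ofRealCLM.contDiff.pow (n + m)).contDiffAt
  rw [iteratedDeriv_fun_mul hpw ((hh.of_le (by exact_mod_cast le_top)).contDiffAt),
    Nat.add_sub_cancel_left] at h1
  have h2 : ((x : ℂ) ^ m) ≠ 0 := pow_ne_zero _ hx0
  apply mul_left_cancel₀ h2
  rw [← h1, Finset.mul_sum]
  refine Finset.sum_congr rfl fun i hi => ?_
  have hi' : i ≤ n := by
    have := Finset.mem_range.1 hi
    omega
  have e2 : (x : ℂ) ^ (n + m - i) = (x : ℂ) ^ m * (x : ℂ) ^ (n - i) := by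
    rw [← pow_add]
    congr 1
    omega
  have e3 : iteratedDeriv i (fun t : ℝ => (t : ℂ) ^ (n + m)) x
      = ((n + m).descFactorial i : ℂ) * (x : ℂ) ^ (n + m - i) := iter_pow (n + m) i x
  rw [e3, e2]
  ring

lemma kap_alg (n m : ℕ) {x y : ℝ} (hx : 0 < x) (hy : 0 < y) :
    kap n m (x / y) / y * √y ^ (m + 2 * n) =
      ∑ j ∈ Finset.range n, √x ^ m * cf n (n + m) (j + 1) * x ^ (n - (j + 1)) *
        ((-1) ^ (j + 1) * (y - x) ^ j) := by
  unfold kap pp
  rw [Polynomial.eval_finsetSum, Finset.mul_sum, ← Finset.sum_neg_distrib, Finset.sum_div,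
    Finset.sum_mul]
  refine Finset.sum_congr rfl fun j hj => ?_
  have hj' := Finset.mem_range.1 hj
  simp only [Polynomial.eval_mul, Polynomial.eval_C, Polynomial.eval_pow, Polynomial.eval_X,
    Polynomial.eval_sub]
  have h1 : √(x / y) = √x / √y := Real.sqrt_div hx.le y
  have h2 : √y ^ (m + 2 * n) = √y ^ m * (y ^ (n - (j + 1)) * y ^ j * y) := by
    rw [pow_add, pow_mul √y 2 n, Real.sq_sqrt hy.le]
    congr 1
    rw [← pow_add, ← pow_succ]
    congr 1
    omega
  have h3 : √y ≠ 0 := (Real.sqrt_pos.2 hy).ne'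
  have h4 : (x / y - 1) ^ j * y ^ j = (-1) ^ j * (y - x) ^ j := by
    rw [← mul_pow, ← mul_pow]
    congr 1
    field_simp
    ring
  rw [h1, h2, div_pow, div_pow]
  have e : -(√x ^ m / √y ^ m * (cf n (n + m) (j + 1) * (x ^ (n - (j + 1)) / y ^ (n - (j + 1)) *
      (x / y - 1) ^ j))) / y * (√y ^ m * (y ^ (n - (j + 1)) * y ^ j * y))
      = -(√x ^ m * cf n (n + m) (j + 1) * x ^ (n - (j + 1)) * ((x / y - 1) ^ j * y ^ j)) := by
    field_simp
  rw [e, h4, pow_succ]
  ring

/-- the integral formula -/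
theorem rep {h : ℝ → ℂ} (hh : ContDiff ℝ (⊤ : ℕ∞) h) {R : ℝ} (hR : ∀ x, R ≤ x → h x = 0)
    (n m : ℕ) {x : ℝ} (hx : 0 < x) :
    ((√x ^ m : ℝ) : ℂ) * HH (n + m) h n x =
      S n m (fun y => ((√y ^ (m + 2 * n) : ℝ) : ℂ) * iteratedDeriv n h y) x := by
  set M : ℝ := max (R + 1) x with hM
  have hM1 : R + 1 ≤ M := le_max_left _ _
  have hxM : x ≤ M := le_max_right _ _
  have hz : ∀ y, M ≤ y → iteratedDeriv n h y = 0 := fun y hy =>
    Pool.Agent.Y282.RB.A.iter_zero hR n y (hM1.trans hy)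
  unfold S
  -- the integral over a bounded interval
  have hI : ∫ y in Ioi x, ((kap n m (x / y) / y : ℝ) : ℂ) *
      (((√y ^ (m + 2 * n) : ℝ) : ℂ) * iteratedDeriv n h y) =
      ∫ y in x..M, ((∑ j ∈ Finset.range n, √x ^ m * cf n (n + m) (j + 1) * x ^ (n - (j + 1)) *
        ((-1) ^ (j + 1) * (y - x) ^ j) : ℝ) : ℂ) * iteratedDeriv n h y := by
    rw [intervalIntegral.integral_of_le hxM]
    have h1 : ∫ y in Ioi x, ((kap n m (x / y) / y : ℝ) : ℂ) *
      (((√y ^ (m + 2 * n) : ℝ) : ℂ) * iteratedDeriv n h y) =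
      ∫ y in Ioc x M, ((kap n m (x / y) / y : ℝ) : ℂ) *
      (((√y ^ (m + 2 * n) : ℝ) : ℂ) * iteratedDeriv n h y) := by
      refine setIntegral_eq_of_subset_of_forall_sdiff_eq_zero measurableSet_Ioi
        (fun y hy => hy.1) fun y hy => ?_
      have h2 : M ≤ y := by
        by_contra hcon
        exact hy.2 ⟨hy.1, (not_le.1 hcon).le⟩
      rw [hz y h2]
      simp
    rw [h1]
    refine setIntegral_congr_fun measurableSet_Ioc fun y hy => ?_
    have hy0 : 0 < y := hx.trans hy.1
    rw [← kap_alg n m hx hy0]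
    push_cast
    ring
  rw [hI, leib hh n m hx, Finset.sum_range_succ', mul_add]
  have h0 : ((√x ^ m : ℝ) : ℂ) * ((n.choose 0 : ℂ) * ((n + m).descFactorial 0 : ℂ) *
      (x : ℂ) ^ (n - 0) * iteratedDeriv (n - 0) h x)
      = ((√x ^ (m + 2 * n) : ℝ) : ℂ) * iteratedDeriv n h x := by
    rw [pow_add, pow_mul √x 2 n, Real.sq_sqrt hx.le]
    simp
    ring
  rw [h0, add_comm]
  congr 1
  rw [Finset.mul_sum]
  simp only [Complex.ofReal_sum, Finset.sum_mul]
  rw [intervalIntegral.integral_finsetSum]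
  · refine Finset.sum_congr rfl fun j hj => ?_
    have hj' := Finset.mem_range.1 hj
    have hsm : ContDiff ℝ (⊤ : ℕ∞) (iteratedDeriv (n - (j + 1)) h) := by
      rw [iteratedDeriv_eq_iterate]
      exact hh.iterate_deriv _
    have hR' : ∀ y, R + 1 ≤ y → iteratedDeriv (n - (j + 1)) h y = 0 := fun y hy =>
      Pool.Agent.Y282.RB.A.iter_zero hR _ y hy
    have ht := taylor hsm (R := R + 1) (M := M + 1) hR' (by linarith) x j
    have e1 : iteratedDeriv (j + 1) (iteratedDeriv (n - (j + 1)) h) = iteratedDeriv n h := by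
      rw [iteratedDeriv_eq_iterate, iteratedDeriv_eq_iterate, iteratedDeriv_eq_iterate,
        ← Function.iterate_add_apply]
      congr 2
      omega
    rw [e1] at ht
    have e2 : ∫ y in x..(M + 1), (((y - x) ^ j / (j.factorial : ℝ) : ℝ) : ℂ) * iteratedDeriv n h y
        = ∫ y in x..M, (((y - x) ^ j / (j.factorial : ℝ) : ℝ) : ℂ) * iteratedDeriv n h y := by
      rw [← intervalIntegral.integral_add_adjacent_intervals (a := x) (b := M) (c := M + 1)]
      · have : ∫ y in M..(M + 1), (((y - x) ^ j / (j.factorial : ℝ) : ℝ) : ℂ) * iteratedDeriv n h y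
            = 0 := by
          rw [intervalIntegral.integral_congr (g := fun _ => (0 : ℂ))]
          · simp
          · intro y hy
            rw [uIcc_of_le (by linarith)] at hy
            simp only
            rw [hz y hy.1, mul_zero]
        rw [this, add_zero]
      · exact Continuous.intervalIntegrable (by have := fcont hh n; fun_prop) _ _
      · exact Continuous.intervalIntegrable (by have := fcont hh n; fun_prop) _ _
    rw [e2] at ht
    rw [ht]
    rw [← intervalIntegral.integral_const_mul, ← intervalIntegral.integral_const_mul,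
      ← intervalIntegral.integral_const_mul]
    refine intervalIntegral.integral_congr fun y _ => ?_
    unfold cf
    rw [Nat.add_sub_cancel]
    push_cast
    ring
  · intro j _
    exact Continuous.intervalIntegrable (by have := fcont hh n; fun_prop) _ _

end Pool.Agent.Q75.BM
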