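import Pool.Agent.Q75.BM.A

/-!
# Polar coordinates for the lower integral, and functions on the plane with a given profile
-/

set_option autoImplicit false

open MeasureTheory Set Filter Topology intervalIntegral
open scoped SchwartzMap ContDiff ENNReal

namespace Pool.Agent.Q75.BM

open Pool.Agent.Y282.RB (Tn)
open Pool.Agent.Y282.RB.A2 (HH HH_smooth real_iter db dd db_iter dd_iter Tn_db)

lemma subst_sq (φ : ℝ → ℝ≥0∞) :
    ∫⁻ x in Ioi (0 : ℝ), φ x = 2 * ∫⁻ r in Ioi (0 : ℝ), ENNReal.ofReal r * φ (r ^ 2) := by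
  have himg : (fun r : ℝ => r ^ 2) '' Ioi (0 : ℝ) = Ioi (0 : ℝ) := by
    ext x
    constructor
    · rintro ⟨r, hr, rfl⟩
      exact pow_pos (mem_Ioi.1 hr) 2
    · intro hx
      exact ⟨√x, Real.sqrt_pos.2 hx, Real.sq_sqrt (mem_Ioi.1 hx).le⟩
  have h1 := lintegral_image_eq_lintegral_abs_deriv_mul (s := Ioi (0 : ℝ)) (f := fun r : ℝ => r ^ 2)
    (f' := fun r => 2 * r) measurableSet_Ioi
    (fun r _ => by
      have := (hasDerivAt_pow 2 r).hasDerivWithinAt (s := Ioi (0 : ℝ))
      simpa using this)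
    (fun r hr s hs h => by
      have hr' := (mem_Ioi.1 hr).le
      have hs' := (mem_Ioi.1 hs).le
      exact (pow_left_inj₀ hr' hs' two_ne_zero).1 h) φ
  rw [himg] at h1
  rw [h1, ← lintegral_const_mul' _ _ (by norm_num)]
  refine setLIntegral_congr_fun measurableSet_Ioi fun r hr => ?_
  have hr' : (0 : ℝ) < r := hr
  rw [abs_of_pos (by positivity), ENNReal.ofReal_mul (by norm_num), mul_assoc]
  norm_num

lemma polar (φ : ℝ → ℝ≥0∞) (hφ : Measurable φ) :
    ∫⁻ z : ℂ, φ (Complex.normSq z) = ENNReal.ofReal Real.pi * ∫⁻ x in Ioi (0 : ℝ), φ x := by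
  rw [← Complex.lintegral_comp_polarCoord_symm]
  have h1 : ∀ q : ℝ × ℝ, ENNReal.ofReal q.1 • φ (Complex.normSq (Complex.polarCoord.symm q))
      = (ENNReal.ofReal q.1 * φ (q.1 ^ 2)) * 1 := by
    intro q
    have : Complex.normSq (Complex.polarCoord.symm q) = q.1 ^ 2 := by
      rw [Complex.normSq_eq_norm_sq, Complex.norm_polarCoord_symm, sq_abs]
    rw [this, smul_eq_mul, mul_one]
  simp_rw [h1]
  rw [polarCoord_target, Measure.volume_eq_prod, ← Measure.prod_restrict,
    lintegral_prod_mul (f := fun r : ℝ => ENNReal.ofReal r * φ (r ^ 2)) (g := fun _ : ℝ => 1)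
      (by fun_prop) (by fun_prop), subst_sq φ]
  simp only [lintegral_const, Measure.restrict_apply MeasurableSet.univ, univ_inter,
    Real.volume_Ioo, one_mul]
  have : Real.pi - -Real.pi = 2 * Real.pi := by ring
  rw [this, ENNReal.ofReal_mul (by norm_num)]
  have e : ENNReal.ofReal 2 = 2 := by norm_num
  rw [e]
  ring

/-- functions with a given profile -/
theorem plane (n m : ℕ) {ψ : ℝ → ℂ} (hψ : ContDiff ℝ (⊤ : ℕ∞) ψ) {a b : ℝ} (ha : 0 < a)
    (h1 : ∀ x, x ≤ a → ψ x = 0) (h2 : ∀ x, b ≤ x → ψ x = 0) :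
    ∃ f : 𝓢(ℂ, ℂ), (∀ z, f z = (z / (‖z‖ : ℂ)) ^ (2 * n + m) * ψ (Complex.normSq z)) ∧
      ∀ z, z ≠ 0 → ‖Tn n f z‖ = ‖S n m ψ (Complex.normSq z)‖ := by
  obtain ⟨g, hg⟩ : ∃ g : ℝ → ℂ, g = fun x => ψ x * (((√x ^ (m + 2 * n) : ℝ) : ℂ))⁻¹ := ⟨_, rfl⟩
  have hgs : ContDiff ℝ (⊤ : ℕ∞) g := by
    rw [contDiff_iff_contDiffAt]
    intro x
    rcases lt_or_ge x a with hx | hx
    · refine (contDiffAt_const (c := (0 : ℂ))).congr_of_eventuallyEq ?_
      filter_upwards [Iio_mem_nhds hx] with y hy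
      rw [hg]
      simp only
      rw [h1 y (le_of_lt hy), zero_mul]
    · have hx0 : 0 < x := by linarith
      rw [hg]
      refine ContDiffAt.mul hψ.contDiffAt (ContDiffAt.inv ?_ ?_)
      · exact Complex.ofRealCLM.contDiff.contDiffAt.comp x ((Real.contDiffAt_sqrt hx0.ne').pow _)
      · exact Complex.ofReal_ne_zero.2 (pow_ne_zero _ (Real.sqrt_pos.2 hx0).ne')
  have hgc : HasCompactSupport g := by
    refine HasCompactSupport.intro (isCompact_Icc (a := a) (b := b)) fun x hx => ?_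
    rw [hg]
    simp only
    rcases lt_or_ge x a with h | h
    · rw [h1 x h.le, zero_mul]
    · rw [h2 x ?_, zero_mul]
      by_contra hcon
      exact hx ⟨h, (not_le.1 hcon).le⟩
  obtain ⟨h, hh, ⟨R, hR⟩, hhg⟩ := Pool.Agent.Y282.RB.A1.main n g hgs hgc
  -- the function `u`
  have hus : ContDiff ℝ ∞ (fun z : ℂ => z ^ (n + m) * h (Complex.normSq z)) := by
    have h1 : ContDiff ℝ ∞ (Complex.normSq : ℂ → ℝ) := by
      have e : (Complex.normSq : ℂ → ℝ) = fun z => z.re * z.re + z.im * z.im := by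
        funext z
        exact Complex.normSq_apply z
      rw [e]
      exact (Complex.reCLM.contDiff.mul Complex.reCLM.contDiff).add
        (Complex.imCLM.contDiff.mul Complex.imCLM.contDiff)
    exact (contDiff_id.pow (n + m)).mul (hh.comp h1)
  have huc : HasCompactSupport (fun z : ℂ => z ^ (n + m) * h (Complex.normSq z)) := by
    refine HasCompactSupport.intro (isCompact_closedBall (0 : ℂ) (|R| + 1)) fun w hw => ?_
    rw [Metric.mem_closedBall, dist_zero_right, not_le] at hw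
    have h1 : R ≤ Complex.normSq w := by
      rw [Complex.normSq_eq_norm_sq]
      nlinarith [le_abs_self R, abs_nonneg R]
    rw [hR _ h1, mul_zero]
  set u : 𝓢(ℂ, ℂ) := huc.toSchwartzMap hus with hu
  have hu' : ∀ z, u z = z ^ (n + m) * h (Complex.normSq z) := fun z => rfl
  refine ⟨db^[n] u, fun z => ?_, fun z hz => ?_⟩
  · rw [db_iter hh hu' n z, hhg]
    by_cases hz : z = 0
    · subst hz
      rw [map_zero, h1 0 ha.le, hg]
      simp only
      rw [h1 0 ha.le]
      simp
    · have hn : (‖z‖ : ℂ) ≠ 0 := Complex.ofReal_ne_zero.2 (norm_ne_zero_iff.2 hz)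
      rw [hg]
      simp only
      have h3 : √(Complex.normSq z) = ‖z‖ := rfl
      rw [h3, div_pow]
      have e : n + m + n = 2 * n + m := by ring
      have e' : m + 2 * n = 2 * n + m := by ring
      rw [e, e']
      push_cast
      field_simp
  · have hx : 0 < Complex.normSq z := Complex.normSq_pos.2 hz
    rw [Tn_db, dd_iter hh hu' n (by omega) z, Nat.add_sub_cancel_left]
    have h4 := rep hh hR n m hx
    have h5 : S n m (fun y => ((√y ^ (m + 2 * n) : ℝ) : ℂ) * iteratedDeriv n h y) (Complex.normSq z)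
        = S n m ψ (Complex.normSq z) := by
      have h6 : ∀ y : ℝ, 0 < y → ((√y ^ (m + 2 * n) : ℝ) : ℂ) * iteratedDeriv n h y = ψ y := by
        intro y hy
        rw [hhg, hg]
        simp only
        have : ((√y ^ (m + 2 * n) : ℝ) : ℂ) ≠ 0 :=
          Complex.ofReal_ne_zero.2 (pow_ne_zero _ (Real.sqrt_pos.2 hy).ne')
        field_simp
      unfold S
      refine congrArg₂ (· + ·) (h6 _ hx) ?_
      refine setIntegral_congr_fun measurableSet_Ioi fun y hy => ?_
      have h7 := h6 y (hx.trans hy)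
      simp only
      rw [h7]
    rw [h5] at h4
    rw [← h4, norm_mul, norm_mul, norm_pow, Complex.norm_real, Real.norm_eq_abs, abs_pow,
      abs_of_nonneg (Real.sqrt_nonneg _)]
    rfl

end Pool.Agent.Q75.BM
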