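import Pool.Agent.Q75.BM.B
import Pool.Agent.Y338.BP.E

/-!
# The operator on the half-line: measurability, `L²` and `L¹` bounds
-/

set_option autoImplicit false

open MeasureTheory Set Filter Topology intervalIntegral
open scoped SchwartzMap ContDiff ENNReal

namespace Pool.Agent.Q75.BM

open Pool.Agent.Y282.RB (Tn)
open Pool.Agent.TH55.PowA (T bs)

/-- the kernel -/
noncomputable def ker (n m : ℕ) (x y : ℝ) : ℝ := if x < y then kap n m (x / y) / y else 0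

lemma ker_meas (n m : ℕ) : Measurable (fun q : ℝ × ℝ => ker n m q.1 q.2) := by
  unfold ker
  refine Measurable.ite (measurableSet_lt measurable_fst measurable_snd) ?_ measurable_const
  exact ((kap_cont n m).measurable.comp (measurable_fst.div measurable_snd)).div measurable_snd

lemma S_eq (n m : ℕ) (ψ : ℝ → ℂ) (x : ℝ) :
    S n m ψ x = ψ x + ∫ y, ((ker n m x y : ℝ) : ℂ) * ψ y := by
  unfold S
  rw [← MeasureTheory.integral_indicator measurableSet_Ioi]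
  congr 1
  refine integral_congr_ae (Eventually.of_forall fun y => ?_)
  unfold ker
  by_cases h : x < y
  · rw [indicator_of_mem (mem_Ioi.2 h)]
    simp only [h, if_true]
  · rw [indicator_of_notMem (by simpa using h)]
    simp only [h, if_false]
    simp

lemma S_meas (n m : ℕ) {ψ : ℝ → ℂ} (hψ : Measurable ψ) : Measurable (S n m ψ) := by
  have h1 : S n m ψ = fun x => ψ x + ∫ y, ((ker n m x y : ℝ) : ℂ) * ψ y := funext (S_eq n m ψ)
  rw [h1]
  refine hψ.add ?_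
  have h2 : Measurable (Function.uncurry fun x y : ℝ => ((ker n m x y : ℝ) : ℂ) * ψ y) := by
    have h3 := ker_meas n m
    have h4 : Measurable (fun q : ℝ × ℝ => ((ker n m q.1 q.2 : ℝ) : ℂ) * ψ q.2) :=
      (Complex.measurable_ofReal.comp h3).mul (hψ.comp measurable_snd)
    exact h4
  exact (h2.stronglyMeasurable.integral_prod_right).measurable

/-- the `L²` isometry -/
theorem S_L2 (n m : ℕ) {ψ : ℝ → ℂ} (hψ : ContDiff ℝ (⊤ : ℕ∞) ψ) {a b : ℝ} (ha : 0 < a)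
    (h1 : ∀ x, x ≤ a → ψ x = 0) (h2 : ∀ x, b ≤ x → ψ x = 0) :
    ∫⁻ x in Ioi (0 : ℝ), ‖S n m ψ x‖ₑ ^ 2 = ∫⁻ x in Ioi (0 : ℝ), ‖ψ x‖ₑ ^ 2 := by
  obtain ⟨f, hf1, hf2⟩ := plane n m hψ ha h1 h2
  have hm : Measurable ψ := hψ.continuous.measurable
  have e1 : ∫⁻ z : ℂ, ‖Tn n f z‖ₑ ^ 2 = ∫⁻ z : ℂ, ‖f z‖ₑ ^ 2 := Pool.Agent.Y338.BP.T_two f n
  have hne : ∀ᵐ z : ℂ, z ≠ 0 := by
    rw [ae_iff]
    simp
  have e2 : ∫⁻ z : ℂ, ‖Tn n f z‖ₑ ^ 2 = ∫⁻ z : ℂ, (fun x : ℝ => ‖S n m ψ x‖ₑ ^ 2) (Complex.normSq z) := by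
    refine lintegral_congr_ae ?_
    filter_upwards [hne] with z hz
    have h := hf2 z hz
    have h' : ‖Tn n f z‖ₑ = ‖S n m ψ (Complex.normSq z)‖ₑ := by
      rw [← ofReal_norm, ← ofReal_norm, h]
    rw [h']
  have e3 : ∫⁻ z : ℂ, ‖f z‖ₑ ^ 2 = ∫⁻ z : ℂ, (fun x : ℝ => ‖ψ x‖ₑ ^ 2) (Complex.normSq z) := by
    refine lintegral_congr_ae ?_
    filter_upwards [hne] with z hz
    have h' : ‖f z‖ₑ = ‖ψ (Complex.normSq z)‖ₑ := by
      have hn : ‖z‖ ≠ 0 := norm_ne_zero_iff.2 hz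
      rw [← ofReal_norm, ← ofReal_norm, hf1 z, norm_mul, norm_pow, norm_div, Complex.norm_real,
        norm_norm, div_self hn, one_pow, one_mul]
    rw [h']
  rw [e2, e3, polar _ ((S_meas n m hm).enorm.pow_const 2), polar _ (hm.enorm.pow_const 2)] at e1
  have hpi : ENNReal.ofReal Real.pi ≠ 0 := by
    rw [ne_eq, ENNReal.ofReal_eq_zero, not_le]
    exact Real.pi_pos
  exact (ENNReal.mul_right_inj hpi ENNReal.ofReal_ne_top).1 e1

lemma ker_col (n m : ℕ) (hn : 1 ≤ n) {y : ℝ} (hy : 0 < y) :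
    ∫⁻ x in Ioi (0 : ℝ), ‖ker n m x y‖ₑ ≤ ENNReal.ofReal (√((n : ℝ) * (n + m))) := by
  have h1 : ∫⁻ x in Ioi (0 : ℝ), ‖ker n m x y‖ₑ
      = ∫⁻ x in Ioc (0 : ℝ) y, ENNReal.ofReal (|kap n m (x / y)| / y) := by
    have h2 : ∫⁻ x in Ioi (0 : ℝ), ‖ker n m x y‖ₑ = ∫⁻ x in Ioo (0 : ℝ) y, ‖ker n m x y‖ₑ := by
      rw [← lintegral_indicator measurableSet_Ioi, ← lintegral_indicator measurableSet_Ioo]
      refine lintegral_congr fun x => ?_
      by_cases hx0 : 0 < x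
      · by_cases hxy : x < y
        · rw [indicator_of_mem (mem_Ioi.2 hx0), indicator_of_mem (mem_Ioo.2 ⟨hx0, hxy⟩)]
        · rw [indicator_of_mem (mem_Ioi.2 hx0), indicator_of_notMem (by
            simp only [mem_Ioo, not_and]; exact fun _ => hxy)]
          unfold ker
          rw [if_neg hxy]
          simp
      · rw [indicator_of_notMem (by simpa using hx0), indicator_of_notMem (by
            simp only [mem_Ioo, not_and]; exact fun h => absurd h hx0)]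
    rw [h2, ← Measure.restrict_congr_set (Ioo_ae_eq_Ioc (μ := (volume : Measure ℝ)) (a := 0) (b := y))]
    refine setLIntegral_congr_fun measurableSet_Ioo fun x hx => ?_
    unfold ker
    rw [if_pos hx.2, ← ofReal_norm, Real.norm_eq_abs, abs_div, abs_of_pos hy]
  have hc : Continuous fun x : ℝ => |kap n m (x / y)| / y := by
    have := kap_cont n m
    fun_prop
  have h3 : ∫⁻ x in Ioc (0 : ℝ) y, ENNReal.ofReal (|kap n m (x / y)| / y)
      = ENNReal.ofReal (∫ x in Ioc (0 : ℝ) y, |kap n m (x / y)| / y) := by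
    rw [ofReal_integral_eq_lintegral_ofReal]
    · exact (hc.integrableOn_Icc (a := 0) (b := y)).mono_set Ioc_subset_Icc_self
    · exact Eventually.of_forall fun x => by positivity
  rw [h1, h3]
  refine ENNReal.ofReal_le_ofReal ?_
  rw [← intervalIntegral.integral_of_le hy.le, intervalIntegral.integral_div]
  have h4 := intervalIntegral.integral_comp_div (a := 0) (b := y) (fun u => |kap n m u|) hy.ne'
  rw [h4, zero_div, div_self hy.ne', smul_eq_mul, mul_div_cancel_left₀ _ hy.ne']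
  exact kap_abs_int n m hn

/-- the `L¹` bound -/
theorem S_L1 (n m : ℕ) (hn : 1 ≤ n) {ψ : ℝ → ℂ} (hψ : Measurable ψ) (h0 : ∀ x, x ≤ 0 → ψ x = 0) :
    ∫⁻ x in Ioi (0 : ℝ), ‖S n m ψ x‖ₑ ≤ ENNReal.ofReal (1 + √((n : ℝ) * (n + m))) *
      ∫⁻ x in Ioi (0 : ℝ), ‖ψ x‖ₑ := by
  have hle : ∀ x, ‖S n m ψ x‖ₑ ≤ ‖ψ x‖ₑ + ∫⁻ y in Ioi (0 : ℝ), ‖ker n m x y‖ₑ * ‖ψ y‖ₑ := by
    intro x
    rw [S_eq]
    refine (enorm_add_le _ _).trans (add_le_add le_rfl ?_)
    refine (enorm_integral_le_lintegral_enorm _).trans ?_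
    have h1 : ∫⁻ y, ‖((ker n m x y : ℝ) : ℂ) * ψ y‖ₑ =
        ∫⁻ y in Ioi (0 : ℝ), ‖ker n m x y‖ₑ * ‖ψ y‖ₑ := by
      rw [← lintegral_indicator measurableSet_Ioi]
      refine lintegral_congr fun y => ?_
      by_cases hy : 0 < y
      · rw [indicator_of_mem (mem_Ioi.2 hy), enorm_mul]
        congr 1
        rw [← ofReal_norm, ← ofReal_norm, Complex.norm_real]
      · rw [indicator_of_notMem (by simpa using hy), h0 y (not_lt.1 hy)]
        simp
    exact h1.le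
  have hkm : Measurable (Function.uncurry fun x y : ℝ => ‖ker n m x y‖ₑ * ‖ψ y‖ₑ) :=
    (ker_meas n m).enorm.mul (hψ.comp measurable_snd).enorm
  calc ∫⁻ x in Ioi (0 : ℝ), ‖S n m ψ x‖ₑ
      ≤ ∫⁻ x in Ioi (0 : ℝ), (‖ψ x‖ₑ + ∫⁻ y in Ioi (0 : ℝ), ‖ker n m x y‖ₑ * ‖ψ y‖ₑ) :=
        lintegral_mono fun x => hle x
    _ = (∫⁻ x in Ioi (0 : ℝ), ‖ψ x‖ₑ) +
        ∫⁻ x in Ioi (0 : ℝ), ∫⁻ y in Ioi (0 : ℝ), ‖ker n m x y‖ₑ * ‖ψ y‖ₑ :=
        lintegral_add_left hψ.enorm _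
    _ = (∫⁻ x in Ioi (0 : ℝ), ‖ψ x‖ₑ) +
        ∫⁻ y in Ioi (0 : ℝ), ∫⁻ x in Ioi (0 : ℝ), ‖ker n m x y‖ₑ * ‖ψ y‖ₑ := by
        rw [lintegral_lintegral_swap hkm.aemeasurable]
    _ ≤ (∫⁻ x in Ioi (0 : ℝ), ‖ψ x‖ₑ) +
        ∫⁻ y in Ioi (0 : ℝ), ENNReal.ofReal (√((n : ℝ) * (n + m))) * ‖ψ y‖ₑ := by
        refine add_le_add le_rfl ?_
        refine setLIntegral_mono' measurableSet_Ioi fun y hy => ?_
        rw [lintegral_mul_const'']
        · exact mul_le_mul' (ker_col n m hn hy) le_rfl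
        · have : Measurable fun x : ℝ => ‖ker n m x y‖ₑ :=
            ((ker_meas n m).comp (measurable_id.prodMk measurable_const)).enorm
          exact this.aemeasurable
    _ = _ := by
        rw [lintegral_const_mul _ hψ.enorm, ENNReal.ofReal_add zero_le_one (Real.sqrt_nonneg _),
          ENNReal.ofReal_one, add_mul, one_mul]

end Pool.Agent.Q75.BM
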