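import Pool.Agent.Y282.RB.K
import Pool.Agent.Y338.BP.E

/-!
# Duality, smoothness and rotations for the powers of the Beurling transform
-/

set_option autoImplicit false

open MeasureTheory Set Filter Topology ComplexConjugate
open scoped SchwartzMap ContDiff ENNReal FourierTransform

namespace Pool.Agent.Q75.BM

open Pool.Agent.Y282.RB (Tn)
open Pool.Agent.TH55.PowA (T Ft bs sm Adm T_integrand_int T_cont Ft_eq Ft_fun Ft_int bs_meas
  bs_norm_le norm_ex meas_ex)
open Pool.Agent.Y282.RB.K (adm_sy Tn_eq)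

lemma bs_neg (ξ : ℂ) : bs (-ξ) = bs ξ := by
  unfold bs
  rw [map_neg, neg_div_neg_eq]

lemma pair1 (n : ℕ) (f g : 𝓢(ℂ, ℂ)) :
    ∫ z : ℂ, Tn n f z * g z = ∫ ξ : ℂ, bs ξ ^ n * Ft f ξ * Ft g (-ξ) := by
  have h1 : ∀ z : ℂ, Tn n f z * g z = ∫ ξ : ℂ, (Complex.exp (2 * (Real.pi : ℂ) * Complex.I *
      ((sm z ξ : ℝ) : ℂ)) * (bs ξ ^ n * Ft f ξ)) * g z := by
    intro z
    rw [Tn_eq]
    unfold T
    rw [integral_mul_const]
  simp only [h1]
  rw [integral_integral_swap]
  · refine integral_congr_ae (Eventually.of_forall fun ξ => ?_)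
    simp only
    have h2 : Ft g (-ξ) = ∫ z : ℂ, Complex.exp (2 * (Real.pi : ℂ) * Complex.I *
      ((sm z ξ : ℝ) : ℂ)) * g z := by
      unfold Ft
      refine integral_congr_ae (Eventually.of_forall fun z => ?_)
      simp only
      congr 2
      have : sm z (-ξ) = - sm z ξ := by
        unfold sm
        simp
        ring
      rw [this]
      push_cast
      ring
    rw [h2, ← MeasureTheory.integral_const_mul]
    refine integral_congr_ae (Eventually.of_forall fun z => ?_)
    simp only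
    ring
  · have hm : AEStronglyMeasurable (Function.uncurry fun (z ξ : ℂ) =>
        (Complex.exp (2 * (Real.pi : ℂ) * Complex.I * ((sm z ξ : ℝ) : ℂ)) *
          (bs ξ ^ n * Ft f ξ)) * g z) ((volume : Measure ℂ).prod volume) := by
      apply Measurable.aestronglyMeasurable
      have hF : Measurable (Ft f) := by
        rw [Ft_fun]
        exact (𝓕 f : 𝓢(ℂ, ℂ)).continuous.measurable
      have hs : Measurable (fun p : ℂ × ℂ => sm p.1 p.2) := by
        unfold sm
        fun_prop
      have hb := bs_meas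
      have hg : Measurable g := g.continuous.measurable
      have h3 : Measurable (fun p : ℂ × ℂ => (Complex.exp (2 * (Real.pi : ℂ) * Complex.I *
          ((sm p.1 p.2 : ℝ) : ℂ)) * (bs p.2 ^ n * Ft f p.2)) * g p.1) := by
        refine Measurable.mul (Measurable.mul ?_ ?_) (hg.comp measurable_fst)
        · exact Complex.measurable_exp.comp (measurable_const.mul
            (Complex.measurable_ofReal.comp hs))
        · exact ((hb.comp measurable_snd).pow_const n).mul (hF.comp measurable_snd)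
      exact h3
    have hint : Integrable (fun p : ℂ × ℂ => ‖g p.1‖ * ‖Ft f p.2‖)
        ((volume : Measure ℂ).prod volume) := g.integrable.norm.mul_prod (Ft_int f).norm
    refine hint.mono' hm (Eventually.of_forall fun p => ?_)
    simp only [Function.uncurry]
    rw [norm_mul, norm_mul, norm_ex, one_mul, norm_mul, mul_comm]
    have h4 : ‖bs p.2 ^ n‖ ≤ 1 := (adm_sy n).le1 p.2
    calc ‖g p.1‖ * (‖bs p.2 ^ n‖ * ‖Ft f p.2‖) ≤ ‖g p.1‖ * (1 * ‖Ft f p.2‖) := by gcongr
      _ = _ := by rw [one_mul]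

/-- the operator is its own transpose -/
theorem pair (n : ℕ) (f g : 𝓢(ℂ, ℂ)) :
    ∫ z : ℂ, Tn n f z * g z = ∫ z : ℂ, f z * Tn n g z := by
  have h1 : ∫ z : ℂ, f z * Tn n g z = ∫ z : ℂ, Tn n g z * f z :=
    integral_congr_ae (Eventually.of_forall fun z => mul_comm _ _)
  rw [h1, pair1, pair1]
  rw [← integral_neg_eq_self (fun ξ : ℂ => bs ξ ^ n * Ft g ξ * Ft f (-ξ)) volume]
  refine integral_congr_ae (Eventually.of_forall fun ξ => ?_)
  simp only
  rw [bs_neg, neg_neg]
  ring

/-- smoothness -/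
theorem Tn_smooth (n : ℕ) (f : 𝓢(ℂ, ℂ)) : ContDiff ℝ (⊤ : ℕ∞) (Tn n f) := by
  set h : ℂ → ℂ := fun ξ => bs ξ ^ n * Ft f ξ with hh
  have e1 : Tn n f = fun z => 𝓕 h (-z) := by
    funext z
    rw [Tn_eq, Real.fourier_eq']
    unfold T
    refine integral_congr_ae (Eventually.of_forall fun ξ => ?_)
    simp only [smul_eq_mul, hh]
    have : (inner ℝ ξ (-z) : ℝ) = - sm z ξ := by
      rw [inner_neg_right, Complex.inner]
      simp [sm]
    rw [this]
    congr 2
    push_cast
    ring
  rw [e1]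
  have h2 : ContDiff ℝ (⊤ : ℕ∞) (𝓕 h) := by
    refine Real.contDiff_fourier fun k _ => ?_
    have hF := (𝓕 f : 𝓢(ℂ, ℂ)).integrable_pow_mul (volume : Measure ℂ) k
    refine hF.mono' ?_ (Eventually.of_forall fun ξ => ?_)
    · refine AEStronglyMeasurable.mul (by fun_prop) ?_
      rw [hh]
      refine (AEStronglyMeasurable.mul ?_ ?_).norm
      · exact (bs_meas.pow_const n).aestronglyMeasurable
      · exact (Ft_int f).aestronglyMeasurable
    · rw [hh]
      simp only
      rw [norm_mul, norm_pow, norm_norm, norm_norm, norm_mul, ← Ft_fun]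
      have h4 : ‖bs ξ ^ n‖ ≤ 1 := (adm_sy n).le1 ξ
      calc ‖ξ‖ ^ k * (‖bs ξ ^ n‖ * ‖Ft f ξ‖) ≤ ‖ξ‖ ^ k * (1 * ‖Ft f ξ‖) := by gcongr
        _ = _ := by rw [one_mul]
  exact h2.comp contDiff_neg

end Pool.Agent.Q75.BM
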