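import Pool.Agent.Q75.BM.D

/-!
# Rotations and reflections
-/

set_option autoImplicit false

open MeasureTheory Set Filter Topology ComplexConjugate
open scoped SchwartzMap ContDiff ENNReal FourierTransform

namespace Pool.Agent.Q75.BM

open Pool.Agent.Y282.RB (Tn)
open Pool.Agent.TH55.PowA (T Ft bs sm Adm T_integrand_int T_cont Ft_eq Ft_fun Ft_int bs_meas
  bs_norm_le norm_ex meas_ex)
open Pool.Agent.Y282.RB.K (adm_sy Tn_eq)

lemma int_rot {a : ℂ} (ha : ‖a‖ = 1) (g : ℂ → ℂ) : ∫ z : ℂ, g (a * z) = ∫ z : ℂ, g z := by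
  let c : Circle := ⟨a, by simpa [Submonoid.unitSphere] using ha⟩
  have h := (rotation c).measurePreserving.integral_comp
    (rotation c).toHomeomorph.measurableEmbedding g
  simpa [rotation_apply] using h

lemma sm_re (x ξ : ℂ) : sm x ξ = (x * conj ξ).re := by
  unfold sm
  simp [Complex.mul_re]

lemma sm_rot {a : ℂ} (ha : ‖a‖ = 1) (x ξ : ℂ) : sm (a * x) (a * ξ) = sm x ξ := by
  rw [sm_re, sm_re, map_mul]
  have h : a * x * (conj a * conj ξ) = (a * conj a) * (x * conj ξ) := by ring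
  rw [h, Complex.mul_conj, Complex.normSq_eq_norm_sq, ha]
  simp

lemma Ft_rot {a c : ℂ} (ha : ‖a‖ = 1) (f : 𝓢(ℂ, ℂ)) (hf : ∀ z, f (a * z) = c * f z) (ξ : ℂ) :
    Ft f (a * ξ) = c * Ft f ξ := by
  unfold Ft
  rw [← int_rot ha, ← MeasureTheory.integral_const_mul]
  refine integral_congr_ae (Eventually.of_forall fun z => ?_)
  simp only
  rw [sm_rot ha, hf]
  ring

lemma bs_rot {a : ℂ} (ha : ‖a‖ = 1) (ξ : ℂ) : bs (a * ξ) = conj a ^ 2 * bs ξ := by
  unfold bs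
  have ha0 : a ≠ 0 := by
    intro h
    rw [h, norm_zero] at ha
    norm_num at ha
  have h1 : a * conj a = 1 := by
    rw [Complex.mul_conj, Complex.normSq_eq_norm_sq, ha]
    simp
  have h2 : conj a = a⁻¹ := eq_inv_of_mul_eq_one_right h1
  rw [map_mul, h2]
  by_cases hξ : ξ = 0
  · simp [hξ]
  · field_simp

theorem Tn_rot (n : ℕ) {a c : ℂ} (ha : ‖a‖ = 1) (f : 𝓢(ℂ, ℂ)) (hf : ∀ z, f (a * z) = c * f z)
    (z : ℂ) : Tn n f (a * z) = conj a ^ (2 * n) * c * Tn n f z := by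
  rw [Tn_eq]
  unfold T
  rw [← int_rot ha, ← MeasureTheory.integral_const_mul]
  refine integral_congr_ae (Eventually.of_forall fun ξ => ?_)
  simp only
  rw [sm_rot ha, Ft_rot ha f hf, bs_rot ha, mul_pow, ← pow_mul]
  ring

/-! ### reflection -/

lemma int_conj (g : ℂ → ℂ) : ∫ z : ℂ, g (conj z) = ∫ z : ℂ, g z := by
  have h := Complex.conjLIE.measurePreserving.integral_comp
    Complex.conjLIE.toHomeomorph.measurableEmbedding g
  simpa using h

lemma sm_conj (x ξ : ℂ) : sm (conj x) ξ = sm x (conj ξ) := by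
  unfold sm
  simp

/-- `f ∘ conj` as a Schwartz function -/
noncomputable def cj (f : 𝓢(ℂ, ℂ)) : 𝓢(ℂ, ℂ) :=
  SchwartzMap.compCLMOfContinuousLinearEquiv ℂ Complex.conjCLE f

lemma cj_apply (f : 𝓢(ℂ, ℂ)) (z : ℂ) : cj f z = f (conj z) := rfl

lemma Ft_cj (f : 𝓢(ℂ, ℂ)) (ξ : ℂ) : Ft (cj f) ξ = Ft f (conj ξ) := by
  unfold Ft
  rw [← int_conj]
  refine integral_congr_ae (Eventually.of_forall fun z => ?_)
  simp only
  rw [cj_apply, Complex.conj_conj, sm_conj]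

/-- on angular mode `k` with `k = n - j` the `n`-th power is the `j`-th power of the reflection -/
theorem Tn_mode_le {k j : ℕ} (f : 𝓢(ℂ, ℂ)) (hf : ∀ a z : ℂ, ‖a‖ = 1 → f (a * z) = a ^ k * f z) :
    Tn (k + j) f = Tn j (cj f) := by
  funext z
  rw [Tn_eq, Tn_eq]
  unfold T
  have hne : ∀ᵐ ξ : ℂ, ξ ≠ 0 := by
    rw [ae_iff]
    simp
  refine integral_congr_ae ?_
  filter_upwards [hne] with ξ hξ
  congr 1
  rw [Ft_cj]
  have hb : ‖bs ξ‖ = 1 := Pool.Agent.TH55.PowA.bs_norm ξ hξ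
  have h1 : Ft f (bs ξ * ξ) = bs ξ ^ k * Ft f ξ := Ft_rot hb f (fun z => hf _ z hb) ξ
  have h2 : bs ξ * ξ = conj ξ := by
    unfold bs
    field_simp
  rw [h2] at h1
  rw [h1, pow_add]
  ring

/-- the `n`-th power on mode `n + j` is the reflection of the `j`-th power -/
theorem Tn_mode_ge {n j : ℕ} (f : 𝓢(ℂ, ℂ))
    (hf : ∀ a z : ℂ, ‖a‖ = 1 → f (a * z) = a ^ (n + j) * f z) (z : ℂ) :
    Tn n f z = Tn j f (conj z) := by
  rw [Tn_eq, Tn_eq]
  unfold T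
  rw [← int_conj (fun ξ => Complex.exp (2 * (Real.pi : ℂ) * Complex.I *
    ((sm (conj z) ξ : ℝ) : ℂ)) * (bs ξ ^ j * Ft f ξ))]
  have hne : ∀ᵐ ξ : ℂ, ξ ≠ 0 := by
    rw [ae_iff]
    simp
  refine integral_congr_ae ?_
  filter_upwards [hne] with ξ hξ
  rw [sm_conj, Complex.conj_conj]
  congr 1
  have hb : ‖bs ξ‖ = 1 := Pool.Agent.TH55.PowA.bs_norm ξ hξ
  have h1 : Ft f (bs ξ * ξ) = bs ξ ^ (n + j) * Ft f ξ := Ft_rot hb f (fun z => hf _ z hb) ξ
  have h2 : bs ξ * ξ = conj ξ := by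
    unfold bs
    field_simp
  rw [h2] at h1
  rw [h1]
  have h3 : bs (conj ξ) * bs ξ = 1 := by
    unfold bs
    rw [Complex.conj_conj]
    have : conj ξ ≠ 0 := by simpa using hξ
    field_simp
  have h4 : bs (conj ξ) ^ j * bs ξ ^ j = 1 := by rw [← mul_pow, h3, one_pow]
  rw [pow_add]
  linear_combination (-(bs ξ ^ n * Ft f ξ)) * h4

end Pool.Agent.Q75.BM
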