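import Mathlib

/-!
# Analytic families given by integrals of exponentials
-/

set_option autoImplicit false

open MeasureTheory Set Filter Topology Complex

namespace Pool.Agent.Q75.BM

lemma an_bound {Ω : Type*} [MeasurableSpace Ω] {ν : Measure Ω} {c : Ω → ℂ} (hc : Integrable c ν)
    {M : Ω → ℝ} {K : ℝ} (hK : ∀ᵐ t ∂ν, |M t| ≤ K) (w : ℂ) :
    ‖∫ t, c t * Complex.exp (w * M t) ∂ν‖ ≤ Real.exp (K * |w.re|) * ∫ t, ‖c t‖ ∂ν := by
  rw [← integral_const_mul]
  refine norm_integral_le_of_norm_le (hc.norm.const_mul _) ?_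
  filter_upwards [hK] with t ht
  rw [norm_mul, Complex.norm_exp, mul_comm]
  have h1 : (w * M t).re = w.re * M t := by simp
  rw [h1]
  refine mul_le_mul_of_nonneg_right (Real.exp_le_exp.2 ?_) (norm_nonneg _)
  calc w.re * M t ≤ |w.re * M t| := le_abs_self _
    _ = |w.re| * |M t| := abs_mul _ _
    _ ≤ |w.re| * K := by gcongr
    _ = K * |w.re| := mul_comm _ _

lemma an_int {Ω : Type*} [MeasurableSpace Ω] {ν : Measure Ω} {c : Ω → ℂ} (hc : Integrable c ν)
    {M : Ω → ℝ} (hM : AEStronglyMeasurable M ν) {K : ℝ} (hK : ∀ᵐ t ∂ν, |M t| ≤ K) (w0 : ℂ) :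
    Integrable (fun t => c t * Complex.exp (w0 * M t)) ν := by
  have hMc : AEStronglyMeasurable (fun t => (M t : ℂ)) ν :=
    Complex.continuous_ofReal.comp_aestronglyMeasurable hM
  refine Integrable.mono' (hc.norm.const_mul (Real.exp (K * |w0.re|)))
    (hc.aestronglyMeasurable.mul (Complex.continuous_exp.comp_aestronglyMeasurable
      (hMc.const_mul w0))) ?_
  filter_upwards [hK] with t ht
  rw [norm_mul, Complex.norm_exp, mul_comm]
  have h1 : (w0 * M t).re = w0.re * M t := by simp
  rw [h1]
  refine mul_le_mul_of_nonneg_right (Real.exp_le_exp.2 ?_) (norm_nonneg _)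
  calc w0.re * M t ≤ |w0.re * M t| := le_abs_self _
    _ = |w0.re| * |M t| := abs_mul _ _
    _ ≤ |w0.re| * K := by gcongr
    _ = K * |w0.re| := mul_comm _ _

lemma an_diff {Ω : Type*} [MeasurableSpace Ω] {ν : Measure Ω} {c : Ω → ℂ} (hc : Integrable c ν)
    {M : Ω → ℝ} (hM : AEStronglyMeasurable M ν) {K : ℝ} (hK : ∀ᵐ t ∂ν, |M t| ≤ K) :
    Differentiable ℂ (fun w : ℂ => ∫ t, c t * Complex.exp (w * M t) ∂ν) := by
  intro w0
  have hMc : AEStronglyMeasurable (fun t => (M t : ℂ)) ν :=
    Complex.continuous_ofReal.comp_aestronglyMeasurable hM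
  have hF : ∀ w : ℂ, AEStronglyMeasurable (fun t => c t * Complex.exp (w * M t)) ν := by
    intro w
    exact hc.aestronglyMeasurable.mul (Complex.continuous_exp.comp_aestronglyMeasurable
      (hMc.const_mul w))
  have hb : ∀ w : ℂ, w ∈ Metric.ball w0 1 → |w.re| ≤ |w0.re| + 1 := by
    intro w hw
    have h1 : |w.re - w0.re| ≤ 1 := by
      have h2 := Complex.abs_re_le_norm (w - w0)
      rw [Complex.sub_re] at h2
      rw [Metric.mem_ball, dist_eq_norm] at hw
      linarith
    have h3 : w.re = w0.re + (w.re - w0.re) := by ring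
    rw [h3]
    exact (abs_add_le _ _).trans (by linarith)
  have hint : Integrable (fun t => c t * Complex.exp (w0 * M t)) ν := by
    refine Integrable.mono' (hc.norm.const_mul (Real.exp (K * |w0.re|))) (hF w0) ?_
    filter_upwards [hK] with t ht
    rw [norm_mul, Complex.norm_exp, mul_comm]
    have h1 : (w0 * M t).re = w0.re * M t := by simp
    rw [h1]
    refine mul_le_mul_of_nonneg_right (Real.exp_le_exp.2 ?_) (norm_nonneg _)
    calc w0.re * M t ≤ |w0.re * M t| := le_abs_self _
      _ = |w0.re| * |M t| := abs_mul _ _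
      _ ≤ |w0.re| * K := by gcongr
      _ = K * |w0.re| := mul_comm _ _
  have h := hasDerivAt_integral_of_dominated_loc_of_deriv_le (μ := ν) (𝕜 := ℂ)
    (F := fun w t => c t * Complex.exp (w * M t))
    (F' := fun w t => c t * (Complex.exp (w * M t) * M t)) (x₀ := w0)
    (s := Metric.ball w0 1)
    (bound := fun t => (Real.exp (K * (|w0.re| + 1)) * K) * ‖c t‖) (Metric.ball_mem_nhds w0 one_pos)
    (Eventually.of_forall hF) hint
    (hc.aestronglyMeasurable.mul ((Complex.continuous_exp.comp_aestronglyMeasurable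
      (hMc.const_mul w0)).mul hMc))
    (by
      filter_upwards [hK] with t ht w hw
      rw [norm_mul, norm_mul, Complex.norm_exp, Complex.norm_real, Real.norm_eq_abs, mul_comm]
      have h1 : (w * M t).re = w.re * M t := by simp
      rw [h1]
      have hK0 : 0 ≤ K := (abs_nonneg _).trans ht
      have h2 : w.re * M t ≤ K * (|w0.re| + 1) := by
        calc w.re * M t ≤ |w.re * M t| := le_abs_self _
          _ = |w.re| * |M t| := abs_mul _ _
          _ ≤ (|w0.re| + 1) * K := mul_le_mul (hb w hw) ht (abs_nonneg _) (by positivity)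
          _ = K * (|w0.re| + 1) := mul_comm _ _
      gcongr)
    (hc.norm.const_mul _)
    (by
      filter_upwards with t w _
      have h1 : HasDerivAt (fun w : ℂ => w * (M t : ℂ)) (M t : ℂ) w := by
        simpa using (hasDerivAt_id w).mul_const (M t : ℂ)
      exact (h1.cexp).const_mul (c t))
  exact h.2.differentiableAt

end Pool.Agent.Q75.BM
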