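import Pool.Agent.Q75.BM.E

/-!
# The `L^q` bound on the half-line, `1 < q ≤ 2`
-/

set_option autoImplicit false

open MeasureTheory Set Filter Topology
open scoped ContDiff ENNReal SchwartzMap

namespace Pool.Agent.Q75.BM

open Pool.Agent.Y282.RB (Tn)

lemma exp_lam_le {q : ℝ} (hq1 : 1 < q) (hq2 : q ≤ 2) {ε : ℝ} (hε : 0 < ε) (ψ : ℝ → ℂ) (y : ℝ) :
    Real.exp (q * lam ε ψ y) ≤ ‖ψ y‖ ^ q + ε ^ q := by
  have h1 : Real.exp (q * lam ε ψ y) = (‖ψ y‖ ^ 2 + ε ^ 2) ^ (q / 2) := by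
    rw [Real.rpow_def_of_pos (pos_arg hε ψ y)]
    congr 1
    unfold lam
    ring
  rw [h1]
  have h2 := NNReal.rpow_add_le_add_rpow (⟨‖ψ y‖ ^ 2, by positivity⟩ : NNReal)
    (⟨ε ^ 2, by positivity⟩ : NNReal) (p := q / 2) (by linarith) (by linarith)
  have h3 : (‖ψ y‖ ^ 2 + ε ^ 2) ^ (q / 2) ≤ (‖ψ y‖ ^ 2) ^ (q / 2) + (ε ^ 2) ^ (q / 2) := by
    exact_mod_cast h2
  refine h3.trans (le_of_eq ?_)
  rw [← Real.rpow_natCast, ← Real.rpow_natCast, ← Real.rpow_mul (norm_nonneg _),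
    ← Real.rpow_mul hε.le]
  congr 2 <;> · push_cast; ring

theorem step2 (n m : ℕ) (hn : 1 ≤ n) {q : ℝ} (hq1 : 1 < q) (hq2 : q ≤ 2)
    {ψ : ℝ → ℂ} (hψ : ContDiff ℝ (⊤ : ℕ∞) ψ) {a b : ℝ} (ha : 0 < a)
    (h1 : ∀ x, x ≤ a → ψ x = 0) (h2 : ∀ x, b ≤ x → ψ x = 0)
    {B : Set ℝ} (hB : MeasurableSet B) {c d δ Λ : ℝ} (hc : 0 < c) (hBcd : B ⊆ Icc c d)
    (hδ : 0 < δ) (hG1 : ∀ x ∈ B, δ ≤ ‖S n m ψ x‖) (hG2 : ∀ x ∈ B, ‖S n m ψ x‖ ≤ Λ) :
    ∫ x in B, ‖S n m ψ x‖ ^ q ≤ (1 + √((n : ℝ) * (n + m))) ^ (2 - q) *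
      ∫ y in Icc a b, ‖ψ y‖ ^ q := by
  set X : ℝ := 1 + √((n : ℝ) * (n + m)) with hX
  have hX0 : 0 < X := by
    have := Real.sqrt_nonneg ((n : ℝ) * (n + m))
    linarith
  have hq0 : 0 < q := by linarith
  set V : ℝ := volume.real (Icc a b) with hV
  have hψc := hψ.continuous
  have hcont : Continuous fun y => ‖ψ y‖ ^ q := hψc.norm.rpow_const (fun _ => Or.inr hq0.le)
  have key : ∀ ε : ℝ, 0 < ε → ∫ x in B, ‖S n m ψ x‖ ^ q ≤
      X ^ (2 - q) * ((∫ y in Icc a b, ‖ψ y‖ ^ q) + V * ε ^ q) := by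
    intro ε hε
    refine (step n m hn hq1 hq2 hψ ha h1 h2 hε hB hc hBcd hδ hG1 hG2).trans ?_
    refine mul_le_mul_of_nonneg_left ?_ (by positivity)
    have h3 : V * ε ^ q = ∫ _ in Icc a b, ε ^ q := by
      rw [setIntegral_const, smul_eq_mul]
    rw [h3, ← integral_add hcont.integrableOn_Icc (integrable_const _)]
    refine setIntegral_mono_on ?_ ?_ measurableSet_Icc fun y _ => exp_lam_le hq1 hq2 hε ψ y
    · have : Continuous fun y => Real.exp (q * lam ε ψ y) := by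
        have := (lam_smooth hε hψ).continuous
        fun_prop
      exact this.integrableOn_Icc
    · exact hcont.integrableOn_Icc.add (integrable_const _)
  have hlim : Tendsto (fun ε : ℝ => X ^ (2 - q) * ((∫ y in Icc a b, ‖ψ y‖ ^ q) + V * ε ^ q))
      (𝓝[>] 0) (𝓝 (X ^ (2 - q) * ((∫ y in Icc a b, ‖ψ y‖ ^ q) + V * 0 ^ q))) := by
    have hc' : Continuous fun ε : ℝ => X ^ (2 - q) * ((∫ y in Icc a b, ‖ψ y‖ ^ q) + V * ε ^ q) := by
      have := Real.continuous_rpow_const hq0.le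
      fun_prop
    exact (hc'.tendsto 0).mono_left nhdsWithin_le_nhds
  rw [Real.zero_rpow hq0.ne', mul_zero, add_zero] at hlim
  refine ge_of_tendsto hlim ?_
  filter_upwards [self_mem_nhdsWithin] with ε hε
  exact key ε hε

/-- the `L^q` bound on the half-line -/
theorem S_Lq (n m : ℕ) (hn : 1 ≤ n) {q : ℝ} (hq1 : 1 < q) (hq2 : q ≤ 2)
    {ψ : ℝ → ℂ} (hψ : ContDiff ℝ (⊤ : ℕ∞) ψ) {a b : ℝ} (ha : 0 < a)
    (h1 : ∀ x, x ≤ a → ψ x = 0) (h2 : ∀ x, b ≤ x → ψ x = 0) :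
    ∫⁻ x in Ioi (0 : ℝ), ‖S n m ψ x‖ₑ ^ q ≤
      ENNReal.ofReal ((1 + √((n : ℝ) * (n + m))) ^ (2 - q)) * ∫⁻ x in Ioi (0 : ℝ), ‖ψ x‖ₑ ^ q := by
  set X : ℝ := 1 + √((n : ℝ) * (n + m)) with hX
  have hX0 : 0 < X := by
    have := Real.sqrt_nonneg ((n : ℝ) * (n + m))
    linarith
  have hq0 : 0 < q := by linarith
  set G : ℝ → ℂ := S n m ψ with hG
  have hψm : Measurable ψ := hψ.continuous.measurable
  have hGm : Measurable G := S_meas n m hψm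
  have hcont : Continuous fun y => ‖ψ y‖ ^ q := hψ.continuous.norm.rpow_const (fun _ => Or.inr hq0.le)
  set s : ℕ → Set ℝ := fun j => {x | (1 / ((j : ℝ) + 1) ≤ x ∧ x ≤ (j : ℝ) + 1) ∧
    (1 / ((j : ℝ) + 1) ≤ ‖G x‖ ∧ ‖G x‖ ≤ (j : ℝ) + 1)} with hs
  have hsm : ∀ j, MeasurableSet (s j) := by
    intro j
    have hm1 : MeasurableSet {x : ℝ | 1 / ((j : ℝ) + 1) ≤ x} := measurableSet_le measurable_const measurable_id
    have hm2 : MeasurableSet {x : ℝ | x ≤ (j : ℝ) + 1} := measurableSet_le measurable_id measurable_const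
    have hm3 : MeasurableSet {x : ℝ | 1 / ((j : ℝ) + 1) ≤ ‖G x‖} := measurableSet_le measurable_const hGm.norm
    have hm4 : MeasurableSet {x : ℝ | ‖G x‖ ≤ (j : ℝ) + 1} := measurableSet_le hGm.norm measurable_const
    exact (hm1.inter hm2).inter (hm3.inter hm4)
  have hmono : Monotone s := by
    intro i j hij x hx
    have hij' : (i : ℝ) ≤ j := by exact_mod_cast hij
    have hle : 1 / ((j : ℝ) + 1) ≤ 1 / ((i : ℝ) + 1) := by
      apply one_div_le_one_div_of_le (by positivity)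
      linarith
    exact ⟨⟨hle.trans hx.1.1, hx.1.2.trans (by linarith)⟩, ⟨hle.trans hx.2.1, hx.2.2.trans (by linarith)⟩⟩
  have hcov : ∀ x, 0 < x → G x ≠ 0 → x ∈ ⋃ j, s j := by
    intro x hx hGx
    have hGp : 0 < ‖G x‖ := norm_pos_iff.2 hGx
    obtain ⟨j, hj⟩ := exists_nat_gt (max (max x (1 / x)) (max ‖G x‖ (1 / ‖G x‖)))
    have j1 : x < j := lt_of_le_of_lt ((le_max_left _ _).trans (le_max_left _ _)) hj
    have j2 : 1 / x < j := lt_of_le_of_lt ((le_max_right _ _).trans (le_max_left _ _)) hj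
    have j3 : ‖G x‖ < j := lt_of_le_of_lt ((le_max_left _ _).trans (le_max_right _ _)) hj
    have j4 : 1 / ‖G x‖ < j := lt_of_le_of_lt ((le_max_right _ _).trans (le_max_right _ _)) hj
    have hj0 : (0 : ℝ) ≤ j := Nat.cast_nonneg j
    refine mem_iUnion.2 ⟨j, ⟨⟨?_, by linarith⟩, ⟨?_, by linarith⟩⟩⟩
    · rw [div_le_iff₀ (by positivity)]
      rw [div_lt_iff₀ hx] at j2
      nlinarith
    · rw [div_le_iff₀ (by positivity)]
      rw [div_lt_iff₀ hGp] at j4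
      nlinarith
  have hle1 : ∫⁻ x in Ioi (0 : ℝ), ‖G x‖ₑ ^ q ≤ ∫⁻ x in ⋃ j, s j, ‖G x‖ₑ ^ q := by
    rw [← lintegral_indicator measurableSet_Ioi,
      ← lintegral_indicator (MeasurableSet.iUnion hsm)]
    refine lintegral_mono fun x => ?_
    by_cases hx : 0 < x
    · by_cases hGx : G x = 0
      · rw [indicator_of_mem (mem_Ioi.2 hx), hGx]
        simp [hq0]
      · rw [indicator_of_mem (hcov x hx hGx)]
        exact indicator_le_self _ _ _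
    · rw [indicator_of_notMem (by simpa using hx)]
      exact zero_le
  refine hle1.trans ?_
  rw [setLIntegral_iUnion_of_directed _ (hmono.directed_le)]
  refine iSup_le fun j => ?_
  have hj1 : (0 : ℝ) < 1 / ((j : ℝ) + 1) := by positivity
  have h3 := step2 n m hn hq1 hq2 hψ ha h1 h2 (hsm j) (c := 1 / ((j : ℝ) + 1)) (d := (j : ℝ) + 1)
    (δ := 1 / ((j : ℝ) + 1)) (Λ := (j : ℝ) + 1) hj1 (fun x hx => ⟨hx.1.1, hx.1.2⟩) hj1
    (fun x hx => hx.2.1) (fun x hx => hx.2.2)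
  have hfin : volume (s j) < ⊤ := by
    have hsub : s j ⊆ Icc (1 / ((j : ℝ) + 1)) ((j : ℝ) + 1) := fun x hx => ⟨hx.1.1, hx.1.2⟩
    refine lt_of_le_of_lt (measure_mono hsub) ?_
    rw [Real.volume_Icc]
    exact ENNReal.ofReal_lt_top
  have hint : IntegrableOn (fun x => ‖G x‖ ^ q) (s j) := by
    refine IntegrableOn.of_bound hfin
      ((hGm.norm.pow_const q).aestronglyMeasurable) (((j : ℝ) + 1) ^ q) ?_
    refine (ae_restrict_iff' (hsm j)).2 (Eventually.of_forall fun x hx => ?_)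
    rw [Real.norm_eq_abs, abs_of_nonneg (by positivity)]
    exact Real.rpow_le_rpow (norm_nonneg _) hx.2.2 (by linarith)
  have e1 : ∫⁻ x in s j, ‖G x‖ₑ ^ q = ENNReal.ofReal (∫ x in s j, ‖G x‖ ^ q) := by
    rw [ofReal_integral_eq_lintegral_ofReal hint (Eventually.of_forall fun x => by positivity)]
    refine lintegral_congr fun x => ?_
    rw [← ofReal_norm, ENNReal.ofReal_rpow_of_nonneg (norm_nonneg _) hq0.le]
  have e2 : ENNReal.ofReal (∫ y in Icc a b, ‖ψ y‖ ^ q) ≤ ∫⁻ x in Ioi (0 : ℝ), ‖ψ x‖ₑ ^ q := by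
    rw [ofReal_integral_eq_lintegral_ofReal hcont.integrableOn_Icc
      (Eventually.of_forall fun x => by positivity)]
    calc ∫⁻ y in Icc a b, ENNReal.ofReal (‖ψ y‖ ^ q) = ∫⁻ y in Icc a b, ‖ψ y‖ₑ ^ q := by
          refine lintegral_congr fun x => ?_
          rw [← ofReal_norm, ENNReal.ofReal_rpow_of_nonneg (norm_nonneg _) hq0.le]
      _ ≤ _ := lintegral_mono_set fun x hx => lt_of_lt_of_le ha hx.1
  rw [e1]
  refine (ENNReal.ofReal_le_ofReal h3).trans ?_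
  rw [ENNReal.ofReal_mul (by positivity)]
  gcongr

/-- the `L^q` bound on the plane -/
theorem plane_Lq (n m : ℕ) (hn : 1 ≤ n) {q : ℝ} (hq1 : 1 < q) (hq2 : q ≤ 2)
    {ψ : ℝ → ℂ} (hψ : ContDiff ℝ (⊤ : ℕ∞) ψ) {a b : ℝ} (ha : 0 < a)
    (h1 : ∀ x, x ≤ a → ψ x = 0) (h2 : ∀ x, b ≤ x → ψ x = 0) :
    ∃ f : 𝓢(ℂ, ℂ), (∀ z, f z = (z / (‖z‖ : ℂ)) ^ (2 * n + m) * ψ (Complex.normSq z)) ∧
      ∫⁻ z : ℂ, ‖Tn n f z‖ₑ ^ q ≤
        ENNReal.ofReal ((1 + √((n : ℝ) * (n + m))) ^ (2 - q)) * ∫⁻ z : ℂ, ‖f z‖ₑ ^ q := by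
  obtain ⟨f, hf1, hf2⟩ := plane n m hψ ha h1 h2
  refine ⟨f, hf1, ?_⟩
  have hm : Measurable ψ := hψ.continuous.measurable
  have hne : ∀ᵐ z : ℂ, z ≠ 0 := by
    rw [ae_iff]
    simp
  have e2 : ∫⁻ z : ℂ, ‖Tn n f z‖ₑ ^ q = ∫⁻ z : ℂ, (fun x : ℝ => ‖S n m ψ x‖ₑ ^ q) (Complex.normSq z) := by
    refine lintegral_congr_ae ?_
    filter_upwards [hne] with z hz
    have h := hf2 z hz
    have h' : ‖Tn n f z‖ₑ = ‖S n m ψ (Complex.normSq z)‖ₑ := by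
      rw [← ofReal_norm, ← ofReal_norm, h]
    rw [h']
  have e3 : ∫⁻ z : ℂ, ‖f z‖ₑ ^ q = ∫⁻ z : ℂ, (fun x : ℝ => ‖ψ x‖ₑ ^ q) (Complex.normSq z) := by
    refine lintegral_congr_ae ?_
    filter_upwards [hne] with z hz
    have h' : ‖f z‖ₑ = ‖ψ (Complex.normSq z)‖ₑ := by
      have hn : ‖z‖ ≠ 0 := norm_ne_zero_iff.2 hz
      rw [← ofReal_norm, ← ofReal_norm, hf1 z, norm_mul, norm_pow, norm_div, Complex.norm_real,
        norm_norm, div_self hn, one_pow, one_mul]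
    rw [h']
  rw [e2, e3, polar _ ((S_meas n m hm).enorm.pow_const q), polar _ (hm.enorm.pow_const q)]
  calc ENNReal.ofReal Real.pi * ∫⁻ x in Ioi (0 : ℝ), ‖S n m ψ x‖ₑ ^ q
      ≤ ENNReal.ofReal Real.pi * (ENNReal.ofReal ((1 + √((n : ℝ) * (n + m))) ^ (2 - q)) *
        ∫⁻ x in Ioi (0 : ℝ), ‖ψ x‖ₑ ^ q) := by
        gcongr
        exact S_Lq n m hn hq1 hq2 hψ ha h1 h2
    _ = _ := by ring

end Pool.Agent.Q75.BM
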