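import Pool.Agent.Q75.BM.D2
import Pool.Agent.Q75.BM.E2

/-!
# The bound on negative angular modes, by duality
-/

set_option autoImplicit false

open MeasureTheory Set Filter Topology ComplexConjugate
open scoped SchwartzMap ContDiff ENNReal FourierTransform

namespace Pool.Agent.Q75.BM

open Pool.Agent.Y282.RB (Tn)

/-- the truncated dual function -/
noncomputable def prof (χ : ℝ → ℝ) (H : ℂ → ℂ) (p δ : ℝ) (x : ℝ) : ℂ :=
  (χ x : ℂ) * (conj (H ((√x : ℝ) : ℂ)) *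
    (((‖H ((√x : ℝ) : ℂ)‖ ^ 2 + δ ^ 2) ^ ((p - 2) / 2) : ℝ) : ℂ))

lemma prof_smooth {χ : ℝ → ℝ} (hχ : ContDiff ℝ (⊤ : ℕ∞) χ) {H : ℂ → ℂ}
    (hH : ContDiff ℝ (⊤ : ℕ∞) H) {a : ℝ} (ha : 0 < a) (h0 : ∀ x, x ≤ a → χ x = 0) (p : ℝ)
    {δ : ℝ} (hδ : 0 < δ) : ContDiff ℝ (⊤ : ℕ∞) (prof χ H p δ) := by
  rw [contDiff_iff_contDiffAt]
  intro x
  rcases lt_or_ge x a with hx | hx
  · refine (contDiffAt_const (c := (0 : ℂ))).congr_of_eventuallyEq ?_
    filter_upwards [Iio_mem_nhds hx] with y hy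
    unfold prof
    rw [h0 y (le_of_lt hy)]
    simp
  · have hx0 : 0 < x := by linarith
    have e1 : ContDiffAt ℝ (⊤ : ℕ∞) (fun x : ℝ => ((√x : ℝ) : ℂ)) x :=
      Complex.ofRealCLM.contDiff.contDiffAt.comp x (Real.contDiffAt_sqrt hx0.ne')
    have e2 : ContDiffAt ℝ (⊤ : ℕ∞) (fun x : ℝ => H ((√x : ℝ) : ℂ)) x :=
      hH.contDiffAt.comp x e1
    have e3 : ContDiffAt ℝ (⊤ : ℕ∞) (fun x : ℝ => conj (H ((√x : ℝ) : ℂ))) x :=
      Complex.conjCLE.contDiff.contDiffAt.comp x e2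
    have e4 : ContDiffAt ℝ (⊤ : ℕ∞) (fun x : ℝ =>
        (‖H ((√x : ℝ) : ℂ)‖ ^ 2 + δ ^ 2) ^ ((p - 2) / 2)) x := by
      refine ContDiffAt.rpow_const_of_ne ?_ ?_
      · exact (e2.norm_sq ℝ).add contDiffAt_const
      · positivity
    unfold prof
    refine ContDiffAt.mul (Complex.ofRealCLM.contDiff.contDiffAt.comp x hχ.contDiffAt)
      (e3.mul (Complex.ofRealCLM.contDiff.contDiffAt.comp x e4))

lemma ofReal_mul_rpow_le {p q : ℝ} (hp : 2 < p) (hq : q = p / (p - 1)) {c s δ : ℝ} (hc0 : 0 ≤ c)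
    (hc1 : c ≤ 1) (hs : 0 ≤ s) (hδ : 0 < δ) :
    (c * (s * (s ^ 2 + δ ^ 2) ^ ((p - 2) / 2))) ^ q ≤ c * (s ^ 2 + δ ^ 2) ^ (p / 2) := by
  have hq1 : 1 ≤ q := by
    rw [hq, le_div_iff₀ (by linarith)]
    linarith
  have hq0 : 0 < q := by linarith
  have hpos : 0 < s ^ 2 + δ ^ 2 := by positivity
  rw [Real.mul_rpow hc0 (by positivity)]
  have h1 : c ^ q ≤ c := by
    calc c ^ q ≤ c ^ (1 : ℝ) := Real.rpow_le_rpow_of_exponent_ge' hc0 hc1 zero_le_one hq1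
      _ = c := Real.rpow_one c
  have h2 : s ≤ (s ^ 2 + δ ^ 2) ^ ((1 : ℝ) / 2) := by
    rw [← Real.sqrt_eq_rpow]
    exact Real.le_sqrt_of_sq_le (by nlinarith [sq_nonneg δ])
  have h3 : s * (s ^ 2 + δ ^ 2) ^ ((p - 2) / 2) ≤ (s ^ 2 + δ ^ 2) ^ ((p - 1) / 2) := by
    calc s * (s ^ 2 + δ ^ 2) ^ ((p - 2) / 2)
        ≤ (s ^ 2 + δ ^ 2) ^ ((1 : ℝ) / 2) * (s ^ 2 + δ ^ 2) ^ ((p - 2) / 2) := by gcongr
      _ = (s ^ 2 + δ ^ 2) ^ ((p - 1) / 2) := by
          rw [← Real.rpow_add hpos]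
          ring_nf
  have h4 : (s * (s ^ 2 + δ ^ 2) ^ ((p - 2) / 2)) ^ q ≤ (s ^ 2 + δ ^ 2) ^ (p / 2) := by
    calc (s * (s ^ 2 + δ ^ 2) ^ ((p - 2) / 2)) ^ q
        ≤ ((s ^ 2 + δ ^ 2) ^ ((p - 1) / 2)) ^ q :=
          Real.rpow_le_rpow (by positivity) h3 hq0.le
      _ = (s ^ 2 + δ ^ 2) ^ (p / 2) := by
          rw [← Real.rpow_mul hpos.le]
          congr 1
          rw [hq]
          have : p - 1 ≠ 0 := by linarith
          field_simp
  exact mul_le_mul h1 h4 (by positivity) hc0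

/-- the bound after cutting off -/
theorem dual_cut (n m : ℕ) (hn : 1 ≤ n) {p : ℝ} (hp : 2 < p) (f : 𝓢(ℂ, ℂ))
    (hf : ∀ a z : ℂ, ‖a‖ = 1 → f (a * z) = conj a ^ m * f z)
    {χ : ℝ → ℝ} (hχ : ContDiff ℝ (⊤ : ℕ∞) χ) {a b : ℝ} (ha : 0 < a)
    (h0 : ∀ x, x ≤ a → χ x = 0) (hb : ∀ x, b ≤ x → χ x = 0) (h01 : ∀ x, 0 ≤ χ x ∧ χ x ≤ 1) :
    ∫⁻ z : ℂ, ENNReal.ofReal (χ (Complex.normSq z) * ‖Tn n f z‖ ^ p) ≤
      ENNReal.ofReal ((1 + √((n : ℝ) * (n + m))) ^ (p - 2)) * ∫⁻ z : ℂ, ‖f z‖ₑ ^ p := by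
  set X : ℝ := 1 + √((n : ℝ) * (n + m)) with hX
  have hX0 : 0 < X := by
    have := Real.sqrt_nonneg ((n : ℝ) * (n + m))
    linarith
  set H : ℂ → ℂ := Tn n f with hH
  have hHs : ContDiff ℝ (⊤ : ℕ∞) H := Tn_smooth n f
  have hHc : Continuous H := hHs.continuous
  have hp0 : 0 < p := by linarith
  set q : ℝ := p / (p - 1) with hq
  have hq1 : 1 < q := by
    rw [hq, lt_div_iff₀ (by linarith)]
    linarith
  have hq2 : q ≤ 2 := by
    rw [hq, div_le_iff₀ (by linarith)]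
    linarith
  have hq0 : 0 < q := by linarith
  have hpq : p.HolderConjugate q := (Real.holderConjugate_iff_eq_conjExponent (by linarith)).2 rfl
  have hHrot : ∀ z : ℂ, z ≠ 0 → H z = conj (z / (‖z‖ : ℂ)) ^ (2 * n + m) * H ((‖z‖ : ℝ) : ℂ) := by
    intro z hz
    have hn' : (‖z‖ : ℂ) ≠ 0 := Complex.ofReal_ne_zero.2 (norm_ne_zero_iff.2 hz)
    have hu : ‖z / (‖z‖ : ℂ)‖ = 1 := by
      rw [norm_div, Complex.norm_real, norm_norm]
      exact div_self (norm_ne_zero_iff.2 hz)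
    have h1 := Tn_rot n hu f (c := conj (z / (‖z‖ : ℂ)) ^ m) (fun w => hf _ w hu) ((‖z‖ : ℝ) : ℂ)
    rw [div_mul_cancel₀ _ hn'] at h1
    rw [hH, h1, pow_add]
  -- the quantities
  set A : ℝ → ℝ≥0∞ := fun δ => ∫⁻ z : ℂ, ENNReal.ofReal
    (χ (Complex.normSq z) * (‖H z‖ ^ 2 + δ ^ 2) ^ (p / 2)) with hA
  set L : ℝ≥0∞ := (∫⁻ z : ℂ, ‖f z‖ₑ ^ p) ^ (1 / p) * (ENNReal.ofReal (X ^ (2 - q))) ^ (1 / q) with hL
  set A0 : ℝ≥0∞ := ∫⁻ z : ℂ, ENNReal.ofReal (χ (Complex.normSq z) * ‖H z‖ ^ p) with hA0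
  have hne : ∀ᵐ z : ℂ, z ≠ 0 := by
    rw [ae_iff]
    simp
  have hχc : Continuous fun z : ℂ => χ (Complex.normSq z) :=
    hχ.continuous.comp Complex.continuous_normSq
  have hχs : HasCompactSupport fun z : ℂ => χ (Complex.normSq z) := by
    refine HasCompactSupport.intro (isCompact_closedBall (0 : ℂ) (|b| + 1)) fun w hw => ?_
    rw [Metric.mem_closedBall, dist_zero_right, not_le] at hw
    apply hb
    rw [Complex.normSq_eq_norm_sq]
    nlinarith [le_abs_self b, abs_nonneg b]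
  have key : ∀ δ : ℝ, 0 < δ → A0 ≤ L * (A δ) ^ (1 / q) := by
    intro δ hδ
    obtain ⟨g, hg1, hg2⟩ := plane_Lq n m hn hq1 hq2 (prof_smooth hχ hHs ha h0 p hδ) ha
      (fun x hx => by unfold prof; rw [h0 x hx]; simp)
      (fun x hx => by unfold prof; rw [hb x hx]; simp)
    set W : ℂ → ℝ := fun z => χ (Complex.normSq z) *
      (‖H z‖ ^ 2 * (‖H z‖ ^ 2 + δ ^ 2) ^ ((p - 2) / 2)) with hW
    have hWc : Continuous W := by
      have hc1 : Continuous fun z => (‖H z‖ ^ 2 + δ ^ 2) ^ ((p - 2) / 2) := by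
        refine Continuous.rpow_const (by fun_prop) fun z => Or.inl ?_
        positivity
      exact hχc.mul ((hHc.norm.pow 2).mul hc1)
    have hWs : HasCompactSupport W := hχs.mul_right
    have hW0 : ∀ z, 0 ≤ W z := fun z => by
      have := (h01 (Complex.normSq z)).1
      rw [hW]
      positivity
    have hsq : ∀ z : ℂ, √(Complex.normSq z) = ‖z‖ := fun z => rfl
    have hnormH : ∀ z : ℂ, z ≠ 0 → ‖H z‖ = ‖H ((‖z‖ : ℝ) : ℂ)‖ := by
      intro z hz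
      have hu : ‖z / (‖z‖ : ℂ)‖ = 1 := by
        rw [norm_div, Complex.norm_real, norm_norm]
        exact div_self (norm_ne_zero_iff.2 hz)
      rw [hHrot z hz, norm_mul, norm_pow, RCLike.norm_conj, hu, one_pow, one_mul]
    have hHg : ∀ z : ℂ, z ≠ 0 → H z * g z = ((W z : ℝ) : ℂ) := by
      intro z hz
      have hu : ‖z / (‖z‖ : ℂ)‖ = 1 := by
        rw [norm_div, Complex.norm_real, norm_norm]
        exact div_self (norm_ne_zero_iff.2 hz)
      have e0 : conj (z / (‖z‖ : ℂ)) * (z / (‖z‖ : ℂ)) = 1 := by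
        rw [mul_comm, Complex.mul_conj, Complex.normSq_eq_norm_sq, hu]
        simp
      have e1 : conj (z / (‖z‖ : ℂ)) ^ (2 * n + m) * (z / (‖z‖ : ℂ)) ^ (2 * n + m) = 1 := by
        rw [← mul_pow, e0, one_pow]
      have e2 : H ((‖z‖ : ℝ) : ℂ) * conj (H ((‖z‖ : ℝ) : ℂ)) = ((‖H ((‖z‖ : ℝ) : ℂ)‖ ^ 2 : ℝ) : ℂ) := by
        rw [Complex.mul_conj, Complex.normSq_eq_norm_sq]
      rw [hg1, hW]
      simp only
      rw [hnormH z hz, hHrot z hz]
      unfold prof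
      rw [hsq]
      have e3 : conj (z / (‖z‖ : ℂ)) ^ (2 * n + m) * H ((‖z‖ : ℝ) : ℂ) *
          ((z / (‖z‖ : ℂ)) ^ (2 * n + m) * ((χ (Complex.normSq z) : ℂ) *
          (conj (H ((‖z‖ : ℝ) : ℂ)) *
            (((‖H ((‖z‖ : ℝ) : ℂ)‖ ^ 2 + δ ^ 2) ^ ((p - 2) / 2) : ℝ) : ℂ))))
          = (conj (z / (‖z‖ : ℂ)) ^ (2 * n + m) * (z / (‖z‖ : ℂ)) ^ (2 * n + m)) *
            ((χ (Complex.normSq z) : ℂ) * ((H ((‖z‖ : ℝ) : ℂ) * conj (H ((‖z‖ : ℝ) : ℂ))) *
            (((‖H ((‖z‖ : ℝ) : ℂ)‖ ^ 2 + δ ^ 2) ^ ((p - 2) / 2) : ℝ) : ℂ))) := by ring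
      rw [e3, e1, e2, one_mul]
      push_cast
      ring
    have hgn : ∀ z : ℂ, z ≠ 0 → ‖g z‖ = χ (Complex.normSq z) *
        (‖H z‖ * (‖H z‖ ^ 2 + δ ^ 2) ^ ((p - 2) / 2)) := by
      intro z hz
      have hu : ‖z / (‖z‖ : ℂ)‖ = 1 := by
        rw [norm_div, Complex.norm_real, norm_norm]
        exact div_self (norm_ne_zero_iff.2 hz)
      rw [hg1, norm_mul, norm_pow, hu, one_pow, one_mul, hnormH z hz]
      unfold prof
      rw [hsq, norm_mul, norm_mul, Complex.norm_real, Complex.norm_real, RCLike.norm_conj,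
        Real.norm_of_nonneg (h01 _).1, Real.norm_of_nonneg (by positivity)]
    -- (iii)
    have s1 : A0 ≤ ∫⁻ z : ℂ, ENNReal.ofReal (W z) := by
      refine lintegral_mono fun z => ENNReal.ofReal_le_ofReal ?_
      rw [hW]
      simp only
      refine mul_le_mul_of_nonneg_left ?_ (h01 _).1
      have e4 : ‖H z‖ ^ p = ‖H z‖ ^ 2 * (‖H z‖ ^ 2) ^ ((p - 2) / 2) := by
        rw [← Real.rpow_natCast ‖H z‖ 2, ← Real.rpow_mul (norm_nonneg _),
          ← Real.rpow_add' (norm_nonneg _)]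
        · congr 1
          push_cast
          ring
        · push_cast
          linarith
      rw [e4]
      gcongr
      nlinarith [sq_nonneg δ]
    have s2 : ∫⁻ z : ℂ, ENNReal.ofReal (W z) = ‖∫ z : ℂ, H z * g z‖ₑ := by
      rw [← ofReal_integral_eq_lintegral_ofReal (hWc.integrable_of_hasCompactSupport hWs)
        (Eventually.of_forall hW0)]
      have e5 : ∫ z : ℂ, H z * g z = ((∫ z : ℂ, W z : ℝ) : ℂ) := by
        rw [← integral_complex_ofReal]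
        refine integral_congr_ae ?_
        filter_upwards [hne] with z hz
        exact hHg z hz
      rw [e5, ← ofReal_norm, Complex.norm_real, Real.norm_of_nonneg (integral_nonneg hW0)]
    have s3 : ‖∫ z : ℂ, H z * g z‖ₑ ≤ ∫⁻ z : ℂ, ‖f z‖ₑ * ‖Tn n g z‖ₑ := by
      rw [hH, pair n f g]
      refine (enorm_integral_le_lintegral_enorm _).trans (le_of_eq ?_)
      exact lintegral_congr fun z => enorm_mul _ _
    have s4 : ∫⁻ z : ℂ, ‖f z‖ₑ * ‖Tn n g z‖ₑ ≤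
        (∫⁻ z : ℂ, ‖f z‖ₑ ^ p) ^ (1 / p) * (∫⁻ z : ℂ, ‖Tn n g z‖ₑ ^ q) ^ (1 / q) :=
      ENNReal.lintegral_mul_le_Lp_mul_Lq volume hpq f.continuous.enorm.measurable.aemeasurable
        (Tn_smooth n g).continuous.enorm.measurable.aemeasurable
    have s5 : ∫⁻ z : ℂ, ‖g z‖ₑ ^ q ≤ A δ := by
      refine lintegral_mono_ae ?_
      filter_upwards [hne] with z hz
      rw [← ofReal_norm, ENNReal.ofReal_rpow_of_nonneg (norm_nonneg _) hq0.le, hgn z hz]
      exact ENNReal.ofReal_le_ofReal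
        (ofReal_mul_rpow_le hp hq (h01 _).1 (h01 _).2 (norm_nonneg _) hδ)
    calc A0 ≤ ∫⁻ z : ℂ, ‖f z‖ₑ * ‖Tn n g z‖ₑ := s1.trans (s2.le.trans s3)
      _ ≤ (∫⁻ z : ℂ, ‖f z‖ₑ ^ p) ^ (1 / p) * (∫⁻ z : ℂ, ‖Tn n g z‖ₑ ^ q) ^ (1 / q) := s4
      _ ≤ (∫⁻ z : ℂ, ‖f z‖ₑ ^ p) ^ (1 / p) *
          (ENNReal.ofReal (X ^ (2 - q)) * A δ) ^ (1 / q) := by
          gcongr
          exact hg2.trans (by gcongr)
      _ = L * (A δ) ^ (1 / q) := by
          rw [ENNReal.mul_rpow_of_nonneg _ _ (by positivity), hL, mul_assoc]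
  -- the limit `δ → 0`
  have hAfin : A 1 < ⊤ := by
    have hc1 : Continuous fun z => χ (Complex.normSq z) * (‖H z‖ ^ 2 + 1 ^ 2) ^ (p / 2) := by
      refine hχc.mul ?_
      refine Continuous.rpow_const (by fun_prop) fun z => Or.inl ?_
      positivity
    have hi := (hc1.integrable_of_hasCompactSupport (μ := (volume : Measure ℂ)) hχs.mul_right).lintegral_lt_top
    exact hi
  have hlimA : Tendsto (fun k : ℕ => A (1 / ((k : ℝ) + 1))) atTop (𝓝 A0) := by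
    refine tendsto_lintegral_of_dominated_convergence (fun z => ENNReal.ofReal
      (χ (Complex.normSq z) * (‖H z‖ ^ 2 + 1 ^ 2) ^ (p / 2))) (fun k => ?_) (fun k => ?_)
      hAfin.ne ?_
    · apply Measurable.ennreal_ofReal
      have hc1 : Continuous fun z => χ (Complex.normSq z) *
          (‖H z‖ ^ 2 + (1 / ((k : ℝ) + 1)) ^ 2) ^ (p / 2) := by
        refine hχc.mul ?_
        exact Continuous.rpow_const (by fun_prop) fun z => Or.inr (by linarith)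
      exact hc1.measurable
    · refine Eventually.of_forall fun z => ENNReal.ofReal_le_ofReal ?_
      have h3 : (1 / ((k : ℝ) + 1)) ^ 2 ≤ 1 ^ 2 := by
        have : 1 / ((k : ℝ) + 1) ≤ 1 := by
          rw [div_le_one (by positivity)]
          have : (0 : ℝ) ≤ k := Nat.cast_nonneg k
          linarith
        gcongr
      refine mul_le_mul_of_nonneg_left ?_ (h01 _).1
      gcongr
    · refine Eventually.of_forall fun z => ?_
      refine ENNReal.tendsto_ofReal ?_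
      have h4 : Tendsto (fun k : ℕ => (1 : ℝ) / ((k : ℝ) + 1)) atTop (𝓝 0) :=
        tendsto_one_div_add_atTop_nhds_zero_nat
      have h5 : Continuous fun t : ℝ => χ (Complex.normSq z) * (‖H z‖ ^ 2 + t ^ 2) ^ (p / 2) := by
        refine continuous_const.mul ?_
        exact Continuous.rpow_const (by fun_prop) fun z => Or.inr (by linarith)
      have h6 := (h5.tendsto 0).comp h4
      have h7 : χ (Complex.normSq z) * (‖H z‖ ^ 2 + 0 ^ 2) ^ (p / 2)
          = χ (Complex.normSq z) * ‖H z‖ ^ p := by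
        congr 1
        rw [zero_pow two_ne_zero, add_zero, ← Real.rpow_natCast, ← Real.rpow_mul (norm_nonneg _)]
        congr 1
        push_cast
        ring
      rw [h7] at h6
      exact h6
  have hA0fin : A0 ≠ ⊤ := by
    refine ne_top_of_le_ne_top hAfin.ne (le_of_tendsto hlimA (Eventually.of_forall fun k => ?_))
    refine lintegral_mono fun z => ENNReal.ofReal_le_ofReal ?_
    have h3 : (1 / ((k : ℝ) + 1)) ^ 2 ≤ 1 ^ 2 := by
      have : 1 / ((k : ℝ) + 1) ≤ 1 := by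
        rw [div_le_one (by positivity)]
        have : (0 : ℝ) ≤ k := Nat.cast_nonneg k
        linarith
      gcongr
    refine mul_le_mul_of_nonneg_left ?_ (h01 _).1
    gcongr
  have hLtop : L ≠ ⊤ := by
    have h3 : ∫⁻ z : ℂ, ‖f z‖ₑ ^ p < ⊤ := by
      have h4 : MemLp f (ENNReal.ofReal p) (volume : Measure ℂ) := f.memLp _ _
      have h5 := lintegral_rpow_enorm_lt_top_of_eLpNorm_lt_top (by simpa using hp0)
        ENNReal.ofReal_ne_top h4.2
      rwa [ENNReal.toReal_ofReal hp0.le] at h5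
    rw [hL]
    refine ENNReal.mul_ne_top ?_ ?_
    · exact ENNReal.rpow_ne_top_of_nonneg (by positivity) h3.ne
    · exact ENNReal.rpow_ne_top_of_nonneg (by positivity) ENNReal.ofReal_ne_top
  have hfin : A0 ≤ L * A0 ^ (1 / q) := by
    have hl : Tendsto (fun k : ℕ => L * (A (1 / ((k : ℝ) + 1))) ^ (1 / q)) atTop
        (𝓝 (L * A0 ^ (1 / q))) := by
      refine ENNReal.Tendsto.const_mul ?_ (Or.inr hLtop)
      exact (ENNReal.continuous_rpow_const.tendsto _).comp hlimA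
    exact ge_of_tendsto hl (Eventually.of_forall fun k => key _ (by positivity))
  have hfin2 : A0 ^ (1 / p) ≤ L := by
    by_cases hz : A0 = 0
    · rw [hz, ENNReal.zero_rpow_of_pos (by positivity)]
      exact zero_le
    · have h3 : A0 = A0 ^ (1 / p) * A0 ^ (1 / q) := by
        rw [← ENNReal.rpow_add _ _ hz hA0fin]
        have : 1 / p + 1 / q = 1 := by
          rw [hq]
          have : p - 1 ≠ 0 := by linarith
          field_simp
          ring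
        rw [this, ENNReal.rpow_one]
      have h4 : A0 ^ (1 / p) * A0 ^ (1 / q) ≤ L * A0 ^ (1 / q) := h3 ▸ hfin
      refine (ENNReal.mul_le_mul_iff_left ?_ ?_).1 h4
      · rw [ne_eq, ENNReal.rpow_eq_zero_iff]
        rintro (⟨h, _⟩ | ⟨h, _⟩)
        · exact hz h
        · exact hA0fin h
      · exact ENNReal.rpow_ne_top_of_nonneg (by positivity) hA0fin
  have h8 := ENNReal.rpow_le_rpow hfin2 hp0.le
  rw [← ENNReal.rpow_mul, one_div_mul_cancel hp0.ne', ENNReal.rpow_one, hL,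
    ENNReal.mul_rpow_of_nonneg _ _ hp0.le, ← ENNReal.rpow_mul, one_div_mul_cancel hp0.ne',
    ENNReal.rpow_one, ← ENNReal.rpow_mul, ENNReal.ofReal_rpow_of_nonneg (by positivity)
    (by positivity), ← Real.rpow_mul hX0.le] at h8
  have h9 : (2 - q) * (1 / q * p) = p - 2 := by
    rw [hq]
    have : p - 1 ≠ 0 := by linarith
    field_simp
    ring
  rw [h9, mul_comm] at h8
  exact h8

end Pool.Agent.Q75.BM
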