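import Pool.Agent.Q75.BM.G
import Pool.Agent.Y282.RB.K3

/-!
# Final forms
-/

set_option autoImplicit false

open MeasureTheory Set Filter Topology ComplexConjugate
open scoped SchwartzMap ContDiff ENNReal FourierTransform

namespace Pool.Agent.Q75.BM

open Pool.Agent.Y282.RB (Tn Cn)

lemma eLp {p : ℝ} (hp : 0 < p) (g : ℂ → ℂ) : eLpNorm g (ENNReal.ofReal p) (volume : Measure ℂ) =
    (∫⁻ z : ℂ, ‖g z‖ₑ ^ p) ^ (1 / p) := by
  rw [eLpNorm_eq_lintegral_rpow_enorm_toReal (by simpa using hp) ENNReal.ofReal_ne_top,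
    ENNReal.toReal_ofReal hp.le]

/-- from a bound for the truncations to a bound for the norm -/
theorem uncut (n : ℕ) {p C : ℝ} (hp : 2 < p) (hC : 0 < C) (f : 𝓢(ℂ, ℂ))
    (hcut : ∀ (χ : ℝ → ℝ), ContDiff ℝ (⊤ : ℕ∞) χ → ∀ a b : ℝ, 0 < a →
      (∀ x, x ≤ a → χ x = 0) → (∀ x, b ≤ x → χ x = 0) → (∀ x, 0 ≤ χ x ∧ χ x ≤ 1) →
      ∫⁻ z : ℂ, ENNReal.ofReal (χ (Complex.normSq z) * ‖Tn n f z‖ ^ p) ≤
        ENNReal.ofReal (C ^ (p - 2)) * ∫⁻ z : ℂ, ‖f z‖ₑ ^ p) :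
    eLpNorm (Tn n f) (ENNReal.ofReal p) (volume : Measure ℂ) ≤
      ENNReal.ofReal (C ^ (1 - 2 / p)) * eLpNorm f (ENNReal.ofReal p) (volume : Measure ℂ) := by
  have hp0 : 0 < p := by linarith
  have hk : ∀ k : ℕ, (0 : ℝ) < 1 / ((k : ℝ) + 2) ∧ 1 / ((k : ℝ) + 2) < 1 := by
    intro k
    have : (0 : ℝ) ≤ k := Nat.cast_nonneg k
    refine ⟨by positivity, ?_⟩
    rw [div_lt_one (by linarith)]
    linarith
  choose χ R hχ1 hχ2 hχ3 hχ4 hχ5 hχ6 using fun k : ℕ =>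
    Pool.Agent.Y282.RB.K.exists_cut (1 / ((k : ℝ) + 2)) (hk k).1 (hk k).2
  have hTc : Continuous (Tn n f) := (Tn_smooth n f).continuous
  have hbound : ∀ k, ∫⁻ z : ℂ, ENNReal.ofReal (χ k (Complex.normSq z) * ‖Tn n f z‖ ^ p) ≤
      ENNReal.ofReal (C ^ (p - 2)) * ∫⁻ z : ℂ, ‖f z‖ₑ ^ p := fun k =>
    hcut (χ k) (hχ1 k) (1 / ((k : ℝ) + 2) / 2) (R k) (by positivity) (hχ5 k) (hχ6 k) (hχ3 k)
  have hne : ∀ᵐ z : ℂ, z ≠ 0 := by
    rw [ae_iff]
    simp
  have hF : ∫⁻ z : ℂ, ‖Tn n f z‖ₑ ^ p ≤ ENNReal.ofReal (C ^ (p - 2)) * ∫⁻ z : ℂ, ‖f z‖ₑ ^ p := by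
    have e1 : ∫⁻ z : ℂ, ‖Tn n f z‖ₑ ^ p ≤ ∫⁻ z : ℂ, liminf (fun k : ℕ =>
        ENNReal.ofReal (χ k (Complex.normSq z) * ‖Tn n f z‖ ^ p)) atTop := by
      refine lintegral_mono_ae ?_
      filter_upwards [hne] with z hz
      have hz0 : 0 < Complex.normSq z := Complex.normSq_pos.2 hz
      have hev : ∀ᶠ k : ℕ in atTop, ENNReal.ofReal (χ k (Complex.normSq z) * ‖Tn n f z‖ ^ p)
          = ‖Tn n f z‖ₑ ^ p := by
        obtain ⟨N, hN⟩ := exists_nat_gt (max (Complex.normSq z) (1 / Complex.normSq z))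
        filter_upwards [eventually_ge_atTop N] with k hk
        have hk' : (N : ℝ) ≤ k := by exact_mod_cast hk
        have h6 : Complex.normSq z < N := lt_of_le_of_lt (le_max_left _ _) hN
        have h7 : 1 / Complex.normSq z < N := lt_of_le_of_lt (le_max_right _ _) hN
        rw [hχ4 k _ ?_ ?_, one_mul, ← ofReal_norm,
          ENNReal.ofReal_rpow_of_nonneg (norm_nonneg _) hp0.le]
        · rw [div_le_iff₀ (by positivity)]
          rw [div_lt_iff₀ hz0] at h7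
          nlinarith
        · rw [one_div_one_div]
          linarith
      have ht : Tendsto (fun k : ℕ => ENNReal.ofReal (χ k (Complex.normSq z) * ‖Tn n f z‖ ^ p))
          atTop (𝓝 (‖Tn n f z‖ₑ ^ p)) := tendsto_const_nhds.congr' (hev.mono fun k h => h.symm)
      rw [ht.liminf_eq]
    refine e1.trans ?_
    refine (lintegral_liminf_le fun k => ?_).trans ?_
    · apply Measurable.ennreal_ofReal
      have hc1 : Continuous fun z => χ k (Complex.normSq z) * ‖Tn n f z‖ ^ p :=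
        ((hχ1 k).continuous.comp Complex.continuous_normSq).mul
          (hTc.norm.rpow_const fun z => Or.inr hp0.le)
      exact hc1.measurable
    · refine liminf_le_of_le ?_ fun b hb => ?_
      · exact ⟨0, by simp⟩
      · obtain ⟨k, hk'⟩ := (hb.and (eventually_ge_atTop 0)).exists
        exact hk'.1.trans (hbound k)
  rw [eLp hp0, eLp hp0]
  have h8 := ENNReal.rpow_le_rpow hF (by positivity : 0 ≤ 1 / p)
  refine h8.trans (le_of_eq ?_)
  rw [ENNReal.mul_rpow_of_nonneg _ _ (by positivity), ENNReal.ofReal_rpow_of_nonneg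
    (by positivity) (by positivity), ← Real.rpow_mul hC.le]
  congr 3
  field_simp

theorem eLp_two (n : ℕ) (f : 𝓢(ℂ, ℂ)) : eLpNorm (Tn n f) (ENNReal.ofReal 2) (volume : Measure ℂ) =
    eLpNorm f (ENNReal.ofReal 2) (volume : Measure ℂ) := by
  rw [eLp two_pos, eLp two_pos]
  have := Pool.Agent.Y338.BP.T_two f n
  simp only [ENNReal.rpow_two]
  rw [← this]
  rfl

/-- negative modes -/
theorem neg_mode (n m : ℕ) (hn : 1 ≤ n) {p : ℝ} (hp : 2 ≤ p) (f : 𝓢(ℂ, ℂ))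
    (hf : ∀ a z : ℂ, ‖a‖ = 1 → f (a * z) = conj a ^ m * f z) :
    eLpNorm (Tn n f) (ENNReal.ofReal p) (volume : Measure ℂ) ≤
      ENNReal.ofReal ((1 + √((n : ℝ) * (n + m))) ^ (1 - 2 / p)) *
        eLpNorm f (ENNReal.ofReal p) (volume : Measure ℂ) := by
  rcases hp.eq_or_lt with h | h
  · rw [← h, eLp_two]
    norm_num
  · refine uncut n h ?_ f fun χ h1 a b ha h2 h3 h4 => dual_cut n m hn h f hf h1 ha h2 h3 h4
    have := Real.sqrt_nonneg ((n : ℝ) * (n + m))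
    linarith

lemma eLp_conj {p : ℝ} (hp : 0 < p) (g : ℂ → ℂ) :
    eLpNorm (fun z => g (conj z)) (ENNReal.ofReal p) (volume : Measure ℂ)
      = eLpNorm g (ENNReal.ofReal p) (volume : Measure ℂ) := by
  rw [eLp hp, eLp hp]
  congr 1
  have h := Complex.conjLIE.measurePreserving.lintegral_comp_emb
    Complex.conjLIE.toHomeomorph.measurableEmbedding (fun z => ‖g z‖ₑ ^ p)
  simpa using h

lemma Tn_zero (f : 𝓢(ℂ, ℂ)) : Tn 0 f = f := by
  funext z
  exact Pool.Agent.Y338.BP.T_zero f z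

/-- the modes `k ≤ n` -/
theorem mode_le (n : ℕ) (hn : 1 ≤ n) {p : ℝ} (hp : 2 ≤ p) (k : ℤ) (hk : k ≤ n) (f : 𝓢(ℂ, ℂ))
    (hf : ∀ a z : ℂ, ‖a‖ = 1 → f (a * z) = a ^ k * f z) :
    eLpNorm (Tn n f) (ENNReal.ofReal p) (volume : Measure ℂ) ≤
      ENNReal.ofReal ((1 + √((n : ℝ) * ((n : ℝ) - k))) ^ (1 - 2 / p)) *
        eLpNorm f (ENNReal.ofReal p) (volume : Measure ℂ) := by
  have hp0 : 0 < p := by linarith
  rcases le_or_gt 0 k with h0 | h0
  · obtain ⟨k', rfl⟩ := Int.eq_ofNat_of_zero_le h0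
    have hk' : k' ≤ n := by exact_mod_cast hk
    obtain ⟨j, rfl⟩ := Nat.exists_eq_add_of_le hk'
    have hf' : ∀ a z : ℂ, ‖a‖ = 1 → f (a * z) = a ^ k' * f z := by
      intro a z ha
      rw [hf a z ha, zpow_natCast]
    rw [Tn_mode_le f hf']
    have e1 : eLpNorm (cj f) (ENNReal.ofReal p) (volume : Measure ℂ)
        = eLpNorm f (ENNReal.ofReal p) (volume : Measure ℂ) := eLp_conj hp0 f
    rcases Nat.eq_zero_or_pos j with hj | hj
    · subst hj
      rw [Tn_zero, e1]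
      simp
    · have h1 := neg_mode j k' hj hp (cj f) (fun a z ha => by
        have ha' : ‖conj a‖ = 1 := by rw [RCLike.norm_conj]; exact ha
        rw [cj_apply, cj_apply, map_mul, hf' _ _ ha'])
      rw [e1] at h1
      refine h1.trans (le_of_eq ?_)
      congr 4
      push_cast
      congr 1
      ring
  · obtain ⟨m, hm⟩ : ∃ m : ℕ, k = -(m : ℤ) := ⟨(-k).toNat, by
      rw [Int.toNat_of_nonneg (by omega)]
      ring⟩
    subst hm
    have h1 := neg_mode n m hn hp f (fun a z ha => by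
      rw [hf a z ha, zpow_neg, zpow_natCast, ← inv_pow]
      congr 2
      have h2 : a * conj a = 1 := by
        rw [Complex.mul_conj, Complex.normSq_eq_norm_sq, ha]
        simp
      exact (eq_inv_of_mul_eq_one_right h2).symm)
    refine h1.trans (le_of_eq ?_)
    congr 4
    push_cast
    congr 1
    ring

/-- the mode `n + 1` -/
theorem mode_succ (n : ℕ) {p : ℝ} (hp : 2 ≤ p) (f : 𝓢(ℂ, ℂ))
    (hf : ∀ a z : ℂ, ‖a‖ = 1 → f (a * z) = a ^ (n + 1) * f z) :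
    eLpNorm (Tn n f) (ENNReal.ofReal p) (volume : Measure ℂ) ≤
      ENNReal.ofReal (p - 1) * eLpNorm f (ENNReal.ofReal p) (volume : Measure ℂ) := by
  have hp0 : 0 < p := by linarith
  have e1 : Tn n f = fun z => Tn 1 f (conj z) := funext fun z => Tn_mode_ge f hf z
  rw [e1, eLp_conj hp0 (Tn 1 f)]
  have h := Pool.Agent.TH55.PowA.base p hp f
  have e2 : Tn 1 f = Pool.Agent.TH55.PowA.T (fun ξ => Pool.Agent.TH55.PowA.bs ξ ^ 1) f := rfl
  rw [e2]
  simpa using h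

/-! ### constants -/

lemma exp_le_frac {x : ℝ} (h0 : 0 ≤ x) (h1 : x < 1) : Real.exp (2 * x) ≤ (1 + x) / (1 - x) := by
  have h2 : 2 * x ≤ Real.log (1 + x) - Real.log (1 - x) := by
    have hs := Real.hasSum_log_sub_log_of_abs_lt_one (x := x) (by rw [abs_of_nonneg h0]; exact h1)
    have h3 := sum_le_hasSum {0} (fun i _ => by positivity) hs
    simpa using h3
  rw [← Real.log_div (by linarith) (by linarith)] at h2
  have h4 : 0 < (1 + x) / (1 - x) := div_pos (by linarith) (by linarith)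
  calc Real.exp (2 * x) ≤ Real.exp (Real.log ((1 + x) / (1 - x))) := Real.exp_le_exp.2 h2
    _ = _ := Real.exp_log h4

/-- `E_n = exp (2 (1 + 1/3 + ... + 1/(2n-1)))` -/
noncomputable def En (n : ℕ) : ℝ := Real.exp (∑ j ∈ Finset.range n, 2 / (2 * (j : ℝ) + 1))

lemma En_pos (n : ℕ) : 0 < En n := Real.exp_pos _

lemma En_le_Cn (n : ℕ) {p : ℝ} (hp : 2 ≤ p) : En n ^ (1 - 2 / p) ≤ Cn p n := by
  set s : ℝ := 1 - 2 / p with hs
  have hp0 : 0 < p := by linarith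
  have hs0 : 0 ≤ s := by
    have : 2 / p ≤ 1 := (div_le_one hp0).2 hp
    linarith
  have hs1 : s < 1 := by
    have : 0 < 2 / p := by positivity
    linarith
  unfold En Cn
  rw [← Real.exp_mul, Finset.sum_mul, Real.exp_sum]
  refine Finset.prod_le_prod (fun j _ => (Real.exp_pos _).le) fun j _ => ?_
  have hj : (0 : ℝ) ≤ j := Nat.cast_nonneg j
  set x : ℝ := s / (2 * (j : ℝ) + 1) with hx
  have hx0 : 0 ≤ x := by positivity
  have hx1 : x < 1 := by
    rw [hx, div_lt_one (by positivity)]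
    linarith
  have h1 := exp_le_frac hx0 hx1
  have e1 : 2 / (2 * (j : ℝ) + 1) * s = 2 * x := by rw [hx]; ring
  rw [e1]
  refine h1.trans (le_of_eq ?_)
  have h2 : (2 * (j : ℝ) + 1) ≠ 0 := by positivity
  have e2 : (1 + x) / (1 - x) = (2 * (j : ℝ) + 1 + s) / (2 * (j : ℝ) + 1 - s) := by
    rw [hx]
    have : 2 * (j : ℝ) + 1 - s ≠ 0 := by linarith
    field_simp
  have e3 : (j : ℝ) + 1 - 1 / p = (2 * (j : ℝ) + 1 + s) / 2 := by
    rw [hs]
    field_simp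
    ring
  have e4 : (j : ℝ) + 1 / p = (2 * (j : ℝ) + 1 - s) / 2 := by
    rw [hs]
    field_simp
    ring
  rw [e2, e3, e4]
  have : 2 * (j : ℝ) + 1 - s ≠ 0 := by linarith
  field_simp

lemma En_ge (n : ℕ) (hn : 1 ≤ n) : 6.333 * ((n : ℝ) + 1 / 6) ≤ En n := by
  induction n, hn using Nat.le_induction with
  | base =>
    unfold En
    have h1 : (2.7182818283 : ℝ) < Real.exp 1 := Real.exp_one_gt_d9
    have h2 : Real.exp 2 = Real.exp 1 * Real.exp 1 := by
      rw [← Real.exp_add]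
      norm_num
    simp only [Finset.range_one, Finset.sum_singleton, Nat.cast_zero, mul_zero, zero_add, div_one]
    rw [h2]
    norm_num
    nlinarith
  | succ n hn ih =>
    have hn' : (1 : ℝ) ≤ n := by exact_mod_cast hn
    have h1 : En (n + 1) = En n * Real.exp (2 / (2 * (n : ℝ) + 1)) := by
      unfold En
      rw [Finset.sum_range_succ, Real.exp_add]
    have h2 := Real.quadratic_le_exp_of_nonneg (x := 2 / (2 * (n : ℝ) + 1)) (by positivity)
    have h3 : (n : ℝ) + 1 + 1 / 6 ≤ ((n : ℝ) + 1 / 6) *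
        (1 + 2 / (2 * (n : ℝ) + 1) + (2 / (2 * (n : ℝ) + 1)) ^ 2 / 2) := by
      have hv : (0 : ℝ) < 2 * (n : ℝ) + 1 := by positivity
      have e : ((n : ℝ) + 1 / 6) * (1 + 2 / (2 * (n : ℝ) + 1) + (2 / (2 * (n : ℝ) + 1)) ^ 2 / 2)
          - ((n : ℝ) + 1 + 1 / 6) = (2 * n - 1) / (3 * (2 * (n : ℝ) + 1) ^ 2) := by
        field_simp
        ring
      have h4 : 0 ≤ (2 * (n : ℝ) - 1) / (3 * (2 * (n : ℝ) + 1) ^ 2) := by
        apply div_nonneg <;> nlinarith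
      linarith
    rw [h1]
    push_cast
    calc 6.333 * ((n : ℝ) + 1 + 1 / 6)
        ≤ 6.333 * (((n : ℝ) + 1 / 6) *
          (1 + 2 / (2 * (n : ℝ) + 1) + (2 / (2 * (n : ℝ) + 1)) ^ 2 / 2)) := by gcongr
      _ = (6.333 * ((n : ℝ) + 1 / 6)) *
          (1 + 2 / (2 * (n : ℝ) + 1) + (2 / (2 * (n : ℝ) + 1)) ^ 2 / 2) := by ring
      _ ≤ En n * Real.exp (2 / (2 * (n : ℝ) + 1)) :=
          mul_le_mul ih h2 (by positivity) (En_pos n).le

lemma one_le_factor {p : ℝ} (hp : 2 ≤ p) (j : ℕ) : 1 ≤ ((j : ℝ) + 1 - 1 / p) / ((j : ℝ) + 1 / p) := by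
  have hp0 : 0 < p := by linarith
  have h1 : 2 / p ≤ 1 := (div_le_one hp0).2 hp
  have h2 : 2 / p = 1 / p + 1 / p := by ring
  have h3 : 0 < 1 / p := by positivity
  have hj : (0 : ℝ) ≤ j := Nat.cast_nonneg j
  rw [le_div_iff₀ (by linarith)]
  linarith

lemma sub_one_le_Cn (n : ℕ) (hn : 1 ≤ n) {p : ℝ} (hp : 2 ≤ p) : p - 1 ≤ Cn p n := by
  induction n, hn using Nat.le_induction with
  | base =>
    unfold Cn
    have hp0 : p ≠ 0 := by linarith
    simp only [Finset.range_one, Finset.prod_singleton, Nat.cast_zero, zero_add]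
    refine le_of_eq ?_
    field_simp
  | succ n hn ih =>
    have h1 : Cn p (n + 1) = Cn p n * (((n : ℝ) + 1 - 1 / p) / ((n : ℝ) + 1 / p)) := by
      unfold Cn
      rw [Finset.prod_range_succ]
    rw [h1]
    have h2 := one_le_factor hp n
    nlinarith

lemma const_le (n : ℕ) (hn : 1 ≤ n) {p : ℝ} (hp : 2 ≤ p) {t : ℝ}
    (ht : t ≤ 40 * (n : ℝ) ^ 2) : (1 + √t) ^ (1 - 2 / p) ≤ Cn p n := by
  have hp0 : 0 < p := by linarith
  have hn' : (1 : ℝ) ≤ n := by exact_mod_cast hn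
  have h1 : √t ≤ 6.325 * n := by
    rw [Real.sqrt_le_left (by positivity)]
    nlinarith
  have h2 : 1 + √t ≤ En n := by
    have := En_ge n hn
    nlinarith
  refine le_trans ?_ (En_le_Cn n hp)
  refine Real.rpow_le_rpow (by positivity) h2 ?_
  have : 2 / p ≤ 1 := (div_le_one hp0).2 hp
  linarith

end Pool.Agent.Q75.BM
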